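import Mathlib

/-!
# The kernel `log (|z - w| ^ 2 + u)` is conditionally negative definite

`cnd`: if `∑ q i = 0` and `u > 0` then `∑ q i q j log (|z i - z j| ^ 2 + u) ≤ 0`. The derivative in `u` is
`∑ q i q j / (|z i - z j| ^ 2 + u)`, nonnegative since `1 / x = ∫ exp (- x t) dt` and the Gaussian kernel is
positive semidefinite, and the sum tends to `0` for `u → ∞`.
-/

open Finset MeasureTheory Filter Topology

namespace H23.ZZ

/-- The powers of the inner product of the plane are positive semidefinite. -/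
theorem pow_psd {ι : Type*} (s : Finset ι) (q x y : ι → ℝ) (k : ℕ) :
    0 ≤ ∑ i ∈ s, ∑ j ∈ s, q i * q j * (x i * x j + y i * y j) ^ k := by
  have h : ∑ i ∈ s, ∑ j ∈ s, q i * q j * (x i * x j + y i * y j) ^ k
      = ∑ m ∈ range (k + 1),
        (k.choose m : ℝ) * (∑ i ∈ s, q i * (x i ^ m * y i ^ (k - m))) ^ 2 := by
    have h1 : ∀ m, (k.choose m : ℝ) * (∑ i ∈ s, q i * (x i ^ m * y i ^ (k - m))) ^ 2
        = ∑ i ∈ s, ∑ j ∈ s,
          q i * q j * ((x i * x j) ^ m * (y i * y j) ^ (k - m) * (k.choose m : ℝ)) := fun m => by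
      rw [sq, Finset.sum_mul_sum, Finset.mul_sum]
      refine Finset.sum_congr rfl fun i _ => ?_
      rw [Finset.mul_sum]
      refine Finset.sum_congr rfl fun j _ => ?_
      rw [mul_pow, mul_pow]
      ring
    simp_rw [h1, add_pow, Finset.mul_sum]
    rw [Finset.sum_comm (s := range (k + 1))]
    refine Finset.sum_congr rfl fun i _ => ?_
    exact Finset.sum_comm
  rw [h]
  exact Finset.sum_nonneg fun m _ => mul_nonneg (Nat.cast_nonneg _) (sq_nonneg _)

/-- The exponential of the inner product is positive semidefinite. -/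
theorem exp_psd {ι : Type*} (s : Finset ι) (q x y : ι → ℝ) {c : ℝ} (hc : 0 ≤ c) :
    0 ≤ ∑ i ∈ s, ∑ j ∈ s, q i * q j * Real.exp (c * (x i * x j + y i * y j)) := by
  have h1 : HasSum (fun k : ℕ => ∑ i ∈ s, ∑ j ∈ s,
      q i * q j * ((c * (x i * x j + y i * y j)) ^ k / (k.factorial : ℝ)))
      (∑ i ∈ s, ∑ j ∈ s, q i * q j * Real.exp (c * (x i * x j + y i * y j))) := by
    refine hasSum_sum fun i _ => hasSum_sum fun j _ => HasSum.mul_left _ ?_
    rw [Real.exp_eq_exp_ℝ]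
    exact NormedSpace.expSeries_div_hasSum_exp _
  refine h1.nonneg fun k => ?_
  have h2 : ∑ i ∈ s, ∑ j ∈ s,
      q i * q j * ((c * (x i * x j + y i * y j)) ^ k / (k.factorial : ℝ))
      = c ^ k / (k.factorial : ℝ) * ∑ i ∈ s, ∑ j ∈ s, q i * q j * (x i * x j + y i * y j) ^ k := by
    rw [Finset.mul_sum]
    refine Finset.sum_congr rfl fun i _ => ?_
    rw [Finset.mul_sum]
    refine Finset.sum_congr rfl fun j _ => ?_
    rw [mul_pow]
    ring
  rw [h2]
  exact mul_nonneg (by positivity) (pow_psd s q x y k)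

/-- The Gaussian kernel is positive semidefinite. -/
theorem gauss_psd {ι : Type*} (s : Finset ι) (q x y : ι → ℝ) {t : ℝ} (ht : 0 ≤ t) :
    0 ≤ ∑ i ∈ s, ∑ j ∈ s, q i * q j * Real.exp (-t * ((x i - x j) ^ 2 + (y i - y j) ^ 2)) := by
  have h1 := exp_psd s (fun i => q i * Real.exp (-t * (x i ^ 2 + y i ^ 2))) x y
    (c := 2 * t) (by linarith)
  refine h1.trans_eq ?_
  refine Finset.sum_congr rfl fun i _ => Finset.sum_congr rfl fun j _ => ?_
  have h2 : -t * ((x i - x j) ^ 2 + (y i - y j) ^ 2)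
      = -t * (x i ^ 2 + y i ^ 2) + -t * (x j ^ 2 + y j ^ 2)
        + 2 * t * (x i * x j + y i * y j) := by ring
  rw [h2, Real.exp_add, Real.exp_add]
  ring

/-- The kernel `1 / (|z - w| ^ 2 + u)` is positive semidefinite. -/
theorem inv_psd {ι : Type*} (s : Finset ι) (q x y : ι → ℝ) {u : ℝ} (hu : 0 < u) :
    0 ≤ ∑ i ∈ s, ∑ j ∈ s, q i * q j * (1 / ((x i - x j) ^ 2 + (y i - y j) ^ 2 + u)) := by
  have hA : ∀ i j, 0 < (x i - x j) ^ 2 + (y i - y j) ^ 2 + u := fun i j => by positivity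
  have h1 : ∀ i j, 1 / ((x i - x j) ^ 2 + (y i - y j) ^ 2 + u)
      = ∫ t in Set.Ioi (0 : ℝ), Real.exp (-((x i - x j) ^ 2 + (y i - y j) ^ 2 + u) * t) :=
    fun i j => by
      rw [integral_exp_mul_Ioi (neg_lt_zero.2 (hA i j)) 0, mul_zero, Real.exp_zero, neg_div_neg_eq]
  have hI : ∀ i j, Integrable
      (fun t : ℝ => q i * q j * Real.exp (-((x i - x j) ^ 2 + (y i - y j) ^ 2 + u) * t))
      (volume.restrict (Set.Ioi (0 : ℝ))) := fun i j =>
    (integrableOn_exp_mul_Ioi (neg_lt_zero.2 (hA i j)) 0).const_mul _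
  have h2 : ∑ i ∈ s, ∑ j ∈ s, q i * q j * (1 / ((x i - x j) ^ 2 + (y i - y j) ^ 2 + u))
      = ∫ t in Set.Ioi (0 : ℝ), ∑ i ∈ s, ∑ j ∈ s,
        q i * q j * Real.exp (-((x i - x j) ^ 2 + (y i - y j) ^ 2 + u) * t) := by
    rw [integral_finsetSum _ fun i _ => integrable_finsetSum _ fun j _ => hI i j]
    refine Finset.sum_congr rfl fun i _ => ?_
    rw [integral_finsetSum _ fun j _ => hI i j]
    refine Finset.sum_congr rfl fun j _ => ?_
    rw [h1, integral_const_mul]
  rw [h2]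
  refine setIntegral_nonneg measurableSet_Ioi fun t ht => ?_
  have ht' : (0 : ℝ) ≤ t := le_of_lt ht
  have h3 : ∑ i ∈ s, ∑ j ∈ s,
      q i * q j * Real.exp (-((x i - x j) ^ 2 + (y i - y j) ^ 2 + u) * t)
      = Real.exp (-(u * t)) * ∑ i ∈ s, ∑ j ∈ s,
        q i * q j * Real.exp (-t * ((x i - x j) ^ 2 + (y i - y j) ^ 2)) := by
    rw [Finset.mul_sum]
    refine Finset.sum_congr rfl fun i _ => ?_
    rw [Finset.mul_sum]
    refine Finset.sum_congr rfl fun j _ => ?_
    have h4 : -((x i - x j) ^ 2 + (y i - y j) ^ 2 + u) * t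
        = -(u * t) + -t * ((x i - x j) ^ 2 + (y i - y j) ^ 2) := by ring
    rw [h4, Real.exp_add]
    ring
  rw [h3]
  exact mul_nonneg (Real.exp_pos _).le (gauss_psd s q x y ht')

/-- **The kernel `log (|z - w| ^ 2 + u)` is conditionally negative definite.** -/
theorem cnd {ι : Type*} (s : Finset ι) (q : ι → ℝ) (z : ι → ℂ) (hq : ∑ i ∈ s, q i = 0)
    {u : ℝ} (hu : 0 < u) :
    ∑ i ∈ s, ∑ j ∈ s, q i * q j * Real.log (‖z i - z j‖ ^ 2 + u) ≤ 0 := by
  have hn : ∀ i j, ‖z i - z j‖ ^ 2 = ((z i).re - (z j).re) ^ 2 + ((z i).im - (z j).im) ^ 2 :=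
    fun i j => by
      rw [← Complex.normSq_eq_norm_sq, Complex.normSq_apply, Complex.sub_re, Complex.sub_im]
      ring
  set f : ℝ → ℝ := fun v => ∑ i ∈ s, ∑ j ∈ s, q i * q j * Real.log (‖z i - z j‖ ^ 2 + v)
    with hf
  have hd : ∀ v : ℝ, 0 < v → HasDerivAt f
      (∑ i ∈ s, ∑ j ∈ s, q i * q j * (1 / (‖z i - z j‖ ^ 2 + v))) v := fun v hv => by
    refine HasDerivAt.fun_sum fun i _ => HasDerivAt.fun_sum fun j _ => HasDerivAt.const_mul _ ?_
    have h1 : ‖z i - z j‖ ^ 2 + v ≠ 0 := by positivity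
    have h2 : HasDerivAt (fun v : ℝ => ‖z i - z j‖ ^ 2 + v) 1 v := by
      simpa using (hasDerivAt_id v).const_add (‖z i - z j‖ ^ 2)
    exact h2.log h1
  have hmono : MonotoneOn f (Set.Ioi 0) := by
    refine monotoneOn_of_deriv_nonneg (convex_Ioi 0)
      (fun v hv => (hd v hv).continuousAt.continuousWithinAt) (fun v hv => ?_) fun v hv => ?_
    · rw [interior_Ioi] at hv
      exact (hd v hv).differentiableAt.differentiableWithinAt
    · rw [interior_Ioi] at hv
      rw [(hd v hv).deriv]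
      have h3 := inv_psd s q (fun i => (z i).re) (fun i => (z i).im) (u := v) hv
      refine h3.trans_eq ?_
      refine Finset.sum_congr rfl fun i _ => Finset.sum_congr rfl fun j _ => ?_
      rw [hn]
  have hqq : ∑ i ∈ s, ∑ j ∈ s, q i * q j = 0 := by
    rw [← Finset.sum_mul_sum, hq, mul_zero]
  have hlim : Tendsto f atTop (𝓝 0) := by
    have h1 : ∀ v : ℝ, f v = ∑ i ∈ s, ∑ j ∈ s,
        q i * q j * (Real.log (v + ‖z i - z j‖ ^ 2) - Real.log v) := fun v => by
      have h2 : ∑ i ∈ s, ∑ j ∈ s, q i * q j * Real.log v = 0 := by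
        simp_rw [← Finset.sum_mul]
        rw [hqq, zero_mul]
      have h3 : ∑ i ∈ s, ∑ j ∈ s, q i * q j * (Real.log (v + ‖z i - z j‖ ^ 2) - Real.log v)
          = f v - ∑ i ∈ s, ∑ j ∈ s, q i * q j * Real.log v := by
        rw [hf]
        beta_reduce
        rw [← Finset.sum_sub_distrib]
        refine Finset.sum_congr rfl fun i _ => ?_
        rw [← Finset.sum_sub_distrib]
        refine Finset.sum_congr rfl fun j _ => ?_
        rw [add_comm v, mul_sub]
      rw [h3, h2, sub_zero]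
    have h4 : Tendsto (fun v : ℝ => ∑ i ∈ s, ∑ j ∈ s,
        q i * q j * (Real.log (v + ‖z i - z j‖ ^ 2) - Real.log v)) atTop
        (𝓝 (∑ i ∈ s, ∑ j ∈ s, q i * q j * 0)) :=
      tendsto_finsetSum _ fun i _ => tendsto_finsetSum _ fun j _ =>
        (Real.tendsto_log_comp_add_sub_log _).const_mul _
    simp only [mul_zero, Finset.sum_const_zero] at h4
    exact h4.congr fun v => (h1 v).symm
  exact ge_of_tendsto hlim ((eventually_ge_atTop u).mono fun v hv =>
    hmono hu (lt_of_lt_of_le hu hv) hv)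

end H23.ZZ
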