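import Pool.Agent.H23.ZZ.Geom

/-!
# From the variable `y = |1 - z| ^ 2` to the circles, and the energy of the charges

The charges are `ζ, conj ζ, 1 - ζ, 1 - conj ζ` for points `ζ` of the unit circle. An inequality between
polynomials in `y ∈ [0, 4]` gives the inequality of the certificate on the two circles, and the energy
of the charges is written with the numbers `Y = |1 - ζ| ^ 2` only.
-/

open Polynomial Finset

namespace H23.ZZ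

/-- The four images of `ζ`. -/
noncomputable def ch (ζ : ℂ) : Fin 4 → ℂ :=
  ![ζ, (starRingEnd ℂ) ζ, 1 - ζ, 1 - (starRingEnd ℂ) ζ]

theorem nc (a b : ℂ) : ‖(starRingEnd ℂ) a - b‖ = ‖a - (starRingEnd ℂ) b‖ := by
  rw [← RCLike.norm_conj (K := ℂ) ((starRingEnd ℂ) a - b), map_sub, Complex.conj_conj]

theorem n1 (a b : ℂ) : ‖1 - a - b‖ = ‖a - (1 - b)‖ := by
  rw [← norm_neg]
  congr 1
  ring

/-- A row of the distance matrix of two quadruples. -/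
theorem row (f : ℝ → ℝ) (ζ η : ℂ) (s : Fin 4) :
    ∑ s', f ‖ch ζ s - ch η s'‖ = f ‖ζ - η‖ + f ‖ζ - (starRingEnd ℂ) η‖ + f ‖ζ - (1 - η)‖
      + f ‖ζ - (1 - (starRingEnd ℂ) η)‖ := by
  have h0 : ch ζ 0 = ζ := rfl
  have h1 : ch ζ 1 = (starRingEnd ℂ) ζ := rfl
  have h2 : ch ζ 2 = 1 - ζ := rfl
  have h3 : ch ζ 3 = 1 - (starRingEnd ℂ) ζ := rfl
  have g0 : ch η 0 = η := rfl
  have g1 : ch η 1 = (starRingEnd ℂ) η := rfl
  have g2 : ch η 2 = 1 - η := rfl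
  have g3 : ch η 3 = 1 - (starRingEnd ℂ) η := rfl
  rw [Fin.sum_univ_four, g0, g1, g2, g3]
  have hs : s = 0 ∨ s = 1 ∨ s = 2 ∨ s = 3 := by fin_cases s <;> simp
  rcases hs with rfl | rfl | rfl | rfl
  · rw [h0]
  · rw [h1, nc, nc, nc, nc, Complex.conj_conj, map_sub, map_sub, map_one, Complex.conj_conj]
    ring
  · rw [h2, n1, n1, n1, n1, sub_sub_cancel, sub_sub_cancel]
    ring
  · rw [h3, n1, n1, n1, n1, sub_sub_cancel, sub_sub_cancel, nc, nc, nc, nc, Complex.conj_conj,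
      map_sub, map_sub, map_one, Complex.conj_conj]
    ring

/-- The product of the four smeared distances. -/
theorem prod_four {z ζ : ℂ} (hz : ‖z‖ = 1) (hζ : ‖ζ‖ = 1) {R K : ℝ} (hR : 0 < R)
    (hK : R * (Real.sqrt (‖1 - ζ‖ ^ 2 * (4 - ‖1 - ζ‖ ^ 2)) + R) ≤ K) :
    (∏ s, max ‖z - ch ζ s‖ R) ^ 2 ≤
      (max |‖1 - z‖ ^ 2 - ‖1 - ζ‖ ^ 2| K) ^ 2 *
        (1 + ‖1 - z‖ ^ 2 * ‖1 - ζ‖ ^ 2 * (‖1 - z‖ ^ 2 + ‖1 - ζ‖ ^ 2 - 3) + K ^ 2) := by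
  have g0 : ch ζ 0 = ζ := rfl
  have g1 : ch ζ 1 = (starRingEnd ℂ) ζ := rfl
  have g2 : ch ζ 2 = 1 - ζ := rfl
  have g3 : ch ζ 3 = 1 - (starRingEnd ℂ) ζ := rfl
  rw [Fin.prod_univ_four, g0, g1, g2, g3]
  have hs : ‖ζ - (starRingEnd ℂ) ζ‖ = Real.sqrt (‖1 - ζ‖ ^ 2 * (4 - ‖1 - ζ‖ ^ 2)) := by
    rw [← slf hζ, Real.sqrt_sq (norm_nonneg _)]
  have hs' : ‖1 - ζ - (1 - (starRingEnd ℂ) ζ)‖
      = Real.sqrt (‖1 - ζ‖ ^ 2 * (4 - ‖1 - ζ‖ ^ 2)) := by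
    rw [← hs, ← norm_neg]
    congr 1
    ring
  have hK0 : 0 ≤ K := le_trans (by positivity) hK
  have h1 : max ‖z - ζ‖ R * max ‖z - (starRingEnd ℂ) ζ‖ R
      ≤ max |‖1 - z‖ ^ 2 - ‖1 - ζ‖ ^ 2| K := by
    refine (max_mul z ζ _ hR).trans ?_
    rw [own hz hζ, hs]
    exact max_le_max le_rfl hK
  have h2 : max ‖z - (1 - ζ)‖ R * max ‖z - (1 - (starRingEnd ℂ) ζ)‖ R
      ≤ max (‖z - (1 - ζ)‖ * ‖z - (1 - (starRingEnd ℂ) ζ)‖) K := by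
    refine (max_mul z (1 - ζ) _ hR).trans ?_
    rw [hs']
    exact max_le_max le_rfl hK
  have h3 : (max (‖z - (1 - ζ)‖ * ‖z - (1 - (starRingEnd ℂ) ζ)‖) K) ^ 2
      ≤ 1 + ‖1 - z‖ ^ 2 * ‖1 - ζ‖ ^ 2 * (‖1 - z‖ ^ 2 + ‖1 - ζ‖ ^ 2 - 3) + K ^ 2 := by
    rw [← mir hz hζ]
    rcases le_total (‖z - (1 - ζ)‖ * ‖z - (1 - (starRingEnd ℂ) ζ)‖) K with h | h
    · rw [max_eq_right h]
      nlinarith [sq_nonneg (‖z - (1 - ζ)‖ * ‖z - (1 - (starRingEnd ℂ) ζ)‖)]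
    · rw [max_eq_left h]
      nlinarith [sq_nonneg K]
  have e1 : max ‖z - ζ‖ R * max ‖z - (starRingEnd ℂ) ζ‖ R * max ‖z - (1 - ζ)‖ R
        * max ‖z - (1 - (starRingEnd ℂ) ζ)‖ R
      = (max ‖z - ζ‖ R * max ‖z - (starRingEnd ℂ) ζ‖ R) *
        (max ‖z - (1 - ζ)‖ R * max ‖z - (1 - (starRingEnd ℂ) ζ)‖ R) := by ring
  have n1' : 0 ≤ max ‖z - ζ‖ R * max ‖z - (starRingEnd ℂ) ζ‖ R := by positivity
  have n2' : 0 ≤ max ‖z - (1 - ζ)‖ R * max ‖z - (1 - (starRingEnd ℂ) ζ)‖ R := by positivity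
  rw [e1, mul_pow]
  exact mul_le_mul (pow_le_pow_left₀ n1' h1 2) ((pow_le_pow_left₀ n2' h2 2).trans h3)
    (by positivity) (by positivity)

/-- The product of the four smeared distances is invariant under `z ↦ 1 - z`. -/
theorem prod_four_symm (z ζ : ℂ) (R : ℝ) :
    ∏ s, max ‖1 - z - ch ζ s‖ R = ∏ s, max ‖z - ch ζ s‖ R := by
  have g0 : ch ζ 0 = ζ := rfl
  have g1 : ch ζ 1 = (starRingEnd ℂ) ζ := rfl
  have g2 : ch ζ 2 = 1 - ζ := rfl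
  have g3 : ch ζ 3 = 1 - (starRingEnd ℂ) ζ := rfl
  rw [Fin.prod_univ_four, Fin.prod_univ_four, g0, g1, g2, g3, n1, n1, n1, n1, sub_sub_cancel,
    sub_sub_cancel]
  ring

/-- The five polynomials of the certificate. -/
noncomputable def cpoly : Fin 5 → ℤ[X] :=
  ![X - X ^ 2, 1 - (X - X ^ 2),
    (X - X ^ 2) ^ 4 - 2 * (X - X ^ 2) ^ 3 + 4 * (X - X ^ 2) ^ 2 - 3 * (X - X ^ 2) + 1,
    (X - X ^ 2) ^ 8 - 3 * (X - X ^ 2) ^ 7 + 8 * (X - X ^ 2) ^ 6 - 16 * (X - X ^ 2) ^ 5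
      + 26 * (X - X ^ 2) ^ 4 - 27 * (X - X ^ 2) ^ 3 + 17 * (X - X ^ 2) ^ 2 - 6 * (X - X ^ 2) + 1,
    (X - X ^ 2) ^ 3 + (X - X ^ 2) ^ 2 - 2 * (X - X ^ 2) + 1]

/-- The polynomials `|N10 (t)| ^ 2`, `|R8 (t)| ^ 2`, `|R3 (t)| ^ 2` in `y`. -/
def A10 (y : ℝ) : ℝ :=
  1 - 8 * y + 27 * y ^ 2 - 55 * y ^ 3 + 76 * y ^ 4 - 65 * y ^ 5 + 33 * y ^ 6 - 9 * y ^ 7 + y ^ 8

@[inherit_doc A10]
def A8 (y : ℝ) : ℝ :=
  1 - 16 * y + 113 * y ^ 2 - 480 * y ^ 3 + 1428 * y ^ 4 - 3283 * y ^ 5 + 6158 * y ^ 6 -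
    9546 * y ^ 7 + 12042 * y ^ 8 - 12029 * y ^ 9 + 9276 * y ^ 10 - 5402 * y ^ 11 +
    2320 * y ^ 12 - 710 * y ^ 13 + 146 * y ^ 14 - 18 * y ^ 15 + y ^ 16

@[inherit_doc A10]
def A3 (y : ℝ) : ℝ :=
  1 - 4 * y + y ^ 2 + 12 * y ^ 3 - 15 * y ^ 4 + 7 * y ^ 5 - y ^ 6

theorem cpoly_eval (z : ℂ) (j : Fin 5) :
    ((cpoly j).map (Int.castRingHom ℂ)).eval z =
      (![z - z ^ 2, 1 - (z - z ^ 2),
        (z - z ^ 2) ^ 4 - 2 * (z - z ^ 2) ^ 3 + 4 * (z - z ^ 2) ^ 2 - 3 * (z - z ^ 2) + 1,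
        (z - z ^ 2) ^ 8 - 3 * (z - z ^ 2) ^ 7 + 8 * (z - z ^ 2) ^ 6 - 16 * (z - z ^ 2) ^ 5
          + 26 * (z - z ^ 2) ^ 4 - 27 * (z - z ^ 2) ^ 3 + 17 * (z - z ^ 2) ^ 2
          - 6 * (z - z ^ 2) + 1,
        (z - z ^ 2) ^ 3 + (z - z ^ 2) ^ 2 - 2 * (z - z ^ 2) + 1] : Fin 5 → ℂ) j := by
  fin_cases j <;> simp [cpoly]

theorem cpoly_symm (z : ℂ) (j : Fin 5) :
    ((cpoly j).map (Int.castRingHom ℂ)).eval (1 - z)
      = ((cpoly j).map (Int.castRingHom ℂ)).eval z := by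
  have h : (1 - z) - (1 - z) ^ 2 = z - z ^ 2 := by ring
  rw [cpoly_eval, cpoly_eval, h]

/-- The squares of the norms on the unit circle. -/
theorem cpoly_sq {z : ℂ} (hz : ‖z‖ = 1) (n : Fin 5 → ℕ) :
    (∏ j, ‖((cpoly j).map (Int.castRingHom ℂ)).eval z‖ ^ n j) ^ 2 =
      (‖1 - z‖ ^ 2) ^ n 0 * |1 - ‖1 - z‖ ^ 2| ^ (2 * n 1) * A10 (‖1 - z‖ ^ 2) ^ n 2 *
        A8 (‖1 - z‖ ^ 2) ^ n 3 * A3 (‖1 - z‖ ^ 2) ^ n 4 := by
  have hp : ∀ (x : ℝ) (k : ℕ), (x ^ k) ^ 2 = (x ^ 2) ^ k := fun x k => by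
    rw [← pow_mul, ← pow_mul, mul_comm]
  rw [Fin.prod_univ_five, mul_pow, mul_pow, mul_pow, mul_pow, hp, hp, hp, hp, hp]
  have e0 : ‖((cpoly 0).map (Int.castRingHom ℂ)).eval z‖ ^ 2 = ‖1 - z‖ ^ 2 := by
    rw [cpoly_eval]
    exact t_norm hz
  have e1 : ‖((cpoly 1).map (Int.castRingHom ℂ)).eval z‖ ^ 2 = |1 - ‖1 - z‖ ^ 2| ^ 2 := by
    rw [cpoly_eval]
    exact congrArg (· ^ 2) (one_sub_t hz)
  have e2 : ‖((cpoly 2).map (Int.castRingHom ℂ)).eval z‖ ^ 2 = A10 (‖1 - z‖ ^ 2) := by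
    rw [cpoly_eval]
    exact nrm_N10 hz _ rfl _ rfl
  have e3 : ‖((cpoly 3).map (Int.castRingHom ℂ)).eval z‖ ^ 2 = A8 (‖1 - z‖ ^ 2) := by
    rw [cpoly_eval]
    exact nrm_R8 hz _ rfl _ rfl
  have e4 : ‖((cpoly 4).map (Int.castRingHom ℂ)).eval z‖ ^ 2 = A3 (‖1 - z‖ ^ 2) := by
    rw [cpoly_eval]
    exact nrm_R3 hz _ rfl _ rfl
  rw [e0, e1, e2, e3, e4, ← pow_mul |1 - ‖1 - z‖ ^ 2|]

theorem t_natDegree : (X - X ^ 2 : ℤ[X]).natDegree = 2 := by compute_degree!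

theorem cpoly_natDegree : ∀ j, (cpoly j).natDegree = ![2, 2, 8, 16, 6] j := by
  have h0 : cpoly 0 = (X : ℤ[X]).comp (X - X ^ 2) := by simp [cpoly]
  have h1 : cpoly 1 = (1 - X : ℤ[X]).comp (X - X ^ 2) := by simp [cpoly]
  have h2 : cpoly 2 = (X ^ 4 - 2 * X ^ 3 + 4 * X ^ 2 - 3 * X + 1 : ℤ[X]).comp (X - X ^ 2) := by
    simp [cpoly]
  have h3 : cpoly 3 = (X ^ 8 - 3 * X ^ 7 + 8 * X ^ 6 - 16 * X ^ 5 + 26 * X ^ 4 - 27 * X ^ 3
      + 17 * X ^ 2 - 6 * X + 1 : ℤ[X]).comp (X - X ^ 2) := by simp [cpoly]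
  have h4 : cpoly 4 = (X ^ 3 + X ^ 2 - 2 * X + 1 : ℤ[X]).comp (X - X ^ 2) := by simp [cpoly]
  intro j
  fin_cases j
  · change (cpoly 0).natDegree = 2
    rw [h0, natDegree_comp, t_natDegree, natDegree_X]
  · change (cpoly 1).natDegree = 2
    rw [h1, natDegree_comp, t_natDegree]
    have : (1 - X : ℤ[X]).natDegree = 1 := by compute_degree!
    rw [this]
  · change (cpoly 2).natDegree = 8
    rw [h2, natDegree_comp, t_natDegree]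
    have : (X ^ 4 - 2 * X ^ 3 + 4 * X ^ 2 - 3 * X + 1 : ℤ[X]).natDegree = 4 := by
      compute_degree!
    rw [this]
  · change (cpoly 3).natDegree = 16
    rw [h3, natDegree_comp, t_natDegree]
    have : (X ^ 8 - 3 * X ^ 7 + 8 * X ^ 6 - 16 * X ^ 5 + 26 * X ^ 4 - 27 * X ^ 3
      + 17 * X ^ 2 - 6 * X + 1 : ℤ[X]).natDegree = 8 := by compute_degree!
    rw [this]
  · change (cpoly 4).natDegree = 6
    rw [h4, natDegree_comp, t_natDegree]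
    have : (X ^ 3 + X ^ 2 - 2 * X + 1 : ℤ[X]).natDegree = 3 := by compute_degree!
    rw [this]

theorem cpoly_ne_zero (j : Fin 5) : cpoly j ≠ 0 := by
  intro h
  have h1 := cpoly_natDegree j
  rw [h, natDegree_zero] at h1
  fin_cases j <;> simp at h1

/-- The charges: `a = 4 m + s`. -/
noncomputable def chg {M : ℕ} (ζ : Fin M → ℂ) (a : Fin (M * 4)) : ℂ :=
  ch (ζ (finProdFinEquiv.symm a).1) (finProdFinEquiv.symm a).2

/-- The radii. -/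
def rad {M : ℕ} (R : Fin M → ℝ) (a : Fin (M * 4)) : ℝ := R (finProdFinEquiv.symm a).1

theorem prod_chg {M : ℕ} (ζ : Fin M → ℂ) (R : Fin M → ℝ) (z : ℂ) :
    ∏ a, max ‖z - chg ζ a‖ (rad R a) = ∏ m, ∏ s, max ‖z - ch (ζ m) s‖ (R m) := by
  rw [← Fintype.prod_prod_type' (fun m s => max ‖z - ch (ζ m) s‖ (R m))]
  exact Equiv.prod_comp finProdFinEquiv.symm
    (fun p : Fin M × Fin 4 => max ‖z - ch (ζ p.1) p.2‖ (R p.1))

/-- **(b1) The inequality on the circles from the inequality in `y`.** -/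
theorem circle {M : ℕ} (ζ : Fin M → ℂ) (hζ : ∀ m, ‖ζ m‖ = 1) (Y R K : Fin M → ℝ)
    (hY : ∀ m, ‖1 - ζ m‖ ^ 2 = Y m) (hR : ∀ m, 0 < R m)
    (hK : ∀ m, R m * (Real.sqrt (Y m * (4 - Y m)) + R m) ≤ K m) (n : Fin 5 → ℕ) (N : ℕ) (C : ℝ)
    (hC : 0 < C)
    (hy : ∀ y : ℝ, 0 ≤ y → y ≤ 4 →
      y ^ n 0 * |1 - y| ^ (2 * n 1) * A10 y ^ n 2 * A8 y ^ n 3 * A3 y ^ n 4 *
        ((∏ m, (max |y - Y m| (K m)) ^ 2) *
          ∏ m, (1 + y * Y m * (y + Y m - 3) + K m ^ 2)) ≤ C ^ 2 * (max 1 y) ^ N)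
    (z : ℂ) (hz : ‖z‖ = 1 ∨ ‖1 - z‖ = 1) :
    (∏ j, ‖((cpoly j).map (Int.castRingHom ℂ)).eval z‖ ^ n j) *
        (∏ a, max ‖z - chg ζ a‖ (rad R a)) ^ 1 ≤ C * (max 1 ‖z‖ * max 1 ‖1 - z‖) ^ N := by
  have key : ∀ z : ℂ, ‖z‖ = 1 →
      (∏ j, ‖((cpoly j).map (Int.castRingHom ℂ)).eval z‖ ^ n j) *
        (∏ m, ∏ s, max ‖z - ch (ζ m) s‖ (R m)) ≤ C * (max 1 ‖1 - z‖) ^ N := by
    intro z hz
    have h0 := y_mem hz
    have h1 := hy _ h0.1 h0.2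
    have h2 : (∏ m, ∏ s, max ‖z - ch (ζ m) s‖ (R m)) ^ 2
        ≤ (∏ m, (max |‖1 - z‖ ^ 2 - Y m| (K m)) ^ 2) *
          ∏ m, (1 + ‖1 - z‖ ^ 2 * Y m * (‖1 - z‖ ^ 2 + Y m - 3) + K m ^ 2) := by
      rw [← Finset.prod_pow, ← Finset.prod_mul_distrib]
      refine Finset.prod_le_prod (fun m _ => by positivity) fun m _ => ?_
      have h3 := prod_four hz (hζ m) (hR m) (K := K m) (by rw [hY]; exact hK m)
      rw [hY] at h3
      exact h3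
    have hn : 0 ≤ (∏ j, ‖((cpoly j).map (Int.castRingHom ℂ)).eval z‖ ^ n j) ^ 2 := by
      positivity
    have h4 : ((∏ j, ‖((cpoly j).map (Int.castRingHom ℂ)).eval z‖ ^ n j) *
        (∏ m, ∏ s, max ‖z - ch (ζ m) s‖ (R m))) ^ 2 ≤ (C * (max 1 ‖1 - z‖) ^ N) ^ 2 := by
      rw [mul_pow]
      refine (mul_le_mul_of_nonneg_left h2 hn).trans ?_
      rw [cpoly_sq hz]
      refine h1.trans (le_of_eq ?_)
      rw [mul_pow, ← pow_mul, mul_comm N 2, pow_mul]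
      congr 2
      rcases le_total ‖1 - z‖ 1 with h5 | h5
      · rw [max_eq_left h5, max_eq_left (by nlinarith [norm_nonneg (1 - z)]), one_pow]
      · rw [max_eq_right h5, max_eq_right (by nlinarith [norm_nonneg (1 - z)])]
    have h6 : 0 ≤ C * (max 1 ‖1 - z‖) ^ N := by positivity
    exact le_of_sq_le_sq h4 h6
  rw [pow_one, prod_chg]
  rcases hz with hz | hz
  · refine (key z hz).trans (le_of_eq ?_)
    rw [hz, max_self, one_mul]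
  · have h1 := key (1 - z) hz
    simp_rw [cpoly_symm, prod_four_symm] at h1
    rw [sub_sub_cancel] at h1
    refine h1.trans (le_of_eq ?_)
    rw [hz, max_self, mul_one]

/-- The mirror form is nonnegative. -/
theorem mir_nonneg {z ζ : ℂ} (hz : ‖z‖ = 1) (hζ : ‖ζ‖ = 1) :
    0 ≤ 1 + ‖1 - z‖ ^ 2 * ‖1 - ζ‖ ^ 2 * (‖1 - z‖ ^ 2 + ‖1 - ζ‖ ^ 2 - 3) := by
  rw [← mir hz hζ]
  positivity

/-- One row of the energy. -/
theorem row_log {z ζ : ℂ} (hz : ‖z‖ = 1) (hζ : ‖ζ‖ = 1)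
    (h1 : ‖1 - z‖ ^ 2 ≠ ‖1 - ζ‖ ^ 2)
    (h2 : 1 + ‖1 - z‖ ^ 2 * ‖1 - ζ‖ ^ 2 * (‖1 - z‖ ^ 2 + ‖1 - ζ‖ ^ 2 - 3) ≠ 0) (s : Fin 4) :
    ∑ s', Real.log ‖ch z s - ch ζ s'‖ = Real.log |‖1 - z‖ ^ 2 - ‖1 - ζ‖ ^ 2|
      + Real.log (1 + ‖1 - z‖ ^ 2 * ‖1 - ζ‖ ^ 2 * (‖1 - z‖ ^ 2 + ‖1 - ζ‖ ^ 2 - 3)) / 2 := by
  have e1 : ‖z - ζ‖ * ‖z - (starRingEnd ℂ) ζ‖ ≠ 0 := by
    rw [own hz hζ]
    exact abs_ne_zero.2 (sub_ne_zero.2 h1)
  have e2 : ‖z - (1 - ζ)‖ * ‖z - (1 - (starRingEnd ℂ) ζ)‖ ≠ 0 := by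
    intro h
    apply h2
    rw [← mir hz hζ, h]
    norm_num
  rw [row, ← own hz hζ, ← mir hz hζ, Real.log_pow,
    Real.log_mul (left_ne_zero_of_mul e1) (right_ne_zero_of_mul e1),
    Real.log_mul (left_ne_zero_of_mul e2) (right_ne_zero_of_mul e2)]
  push_cast
  ring

/-- A row of the energy of one quadruple. -/
theorem row_self {ζ : ℂ} (hζ : ‖ζ‖ = 1) (h0 : 0 < ‖1 - ζ‖ ^ 2) (h4 : ‖1 - ζ‖ ^ 2 < 4)
    (h1 : ‖1 - ζ‖ ^ 2 ≠ 1) (s : Fin 4) :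
    ∑ s', Real.log ‖ch ζ s - ch ζ s'‖ = Real.log (‖1 - ζ‖ ^ 2 * (4 - ‖1 - ζ‖ ^ 2)) / 2
      + Real.log (1 + (‖1 - ζ‖ ^ 2) ^ 2 * (2 * ‖1 - ζ‖ ^ 2 - 3)) / 2 := by
  have h2 : 1 + (‖1 - ζ‖ ^ 2) ^ 2 * (2 * ‖1 - ζ‖ ^ 2 - 3)
      = 1 + ‖1 - ζ‖ ^ 2 * ‖1 - ζ‖ ^ 2 * (‖1 - ζ‖ ^ 2 + ‖1 - ζ‖ ^ 2 - 3) := by ring
  have h3 : 1 + (‖1 - ζ‖ ^ 2) ^ 2 * (2 * ‖1 - ζ‖ ^ 2 - 3)
      = (1 - ‖1 - ζ‖ ^ 2) ^ 2 * (1 + 2 * ‖1 - ζ‖ ^ 2) := by ring
  have h5 : 1 + (‖1 - ζ‖ ^ 2) ^ 2 * (2 * ‖1 - ζ‖ ^ 2 - 3) ≠ 0 := by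
    rw [h3]
    have : 1 - ‖1 - ζ‖ ^ 2 ≠ 0 := sub_ne_zero.2 (Ne.symm h1)
    positivity
  have e2 : ‖ζ - (1 - ζ)‖ * ‖ζ - (1 - (starRingEnd ℂ) ζ)‖ ≠ 0 := by
    intro h
    apply h5
    rw [h2, ← mir hζ hζ, h]
    norm_num
  have e1 : ‖ζ - (starRingEnd ℂ) ζ‖ ≠ 0 := by
    intro h
    have h6 := slf hζ
    rw [h] at h6
    have : 0 < ‖1 - ζ‖ ^ 2 * (4 - ‖1 - ζ‖ ^ 2) := mul_pos h0 (by linarith)
    rw [← h6] at this
    norm_num at this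
  rw [row, ← slf hζ, h2, ← mir hζ hζ, Real.log_pow, Real.log_pow,
    Real.log_mul (left_ne_zero_of_mul e2) (right_ne_zero_of_mul e2), sub_self, norm_zero,
    Real.log_zero]
  push_cast
  ring

/-- A sum over all charges. -/
theorem sum_chg {M : ℕ} (F : Fin M → Fin 4 → ℝ) :
    ∑ a : Fin (M * 4), F (finProdFinEquiv.symm a).1 (finProdFinEquiv.symm a).2
      = ∑ m, ∑ s, F m s := by
  rw [← Fintype.sum_prod_type' F]
  exact Equiv.sum_comp finProdFinEquiv.symm (fun p : Fin M × Fin 4 => F p.1 p.2)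

/-- **(b2) The energy of the charges.** -/
theorem chg_energy {M : ℕ} (ζ : Fin M → ℂ) (hζ : ∀ m, ‖ζ m‖ = 1) (Y R : Fin M → ℝ)
    (hY : ∀ m, ‖1 - ζ m‖ ^ 2 = Y m) (h0 : ∀ m, 0 < Y m) (h4 : ∀ m, Y m < 4)
    (h1 : ∀ m, Y m ≠ 1) (hinj : ∀ m n, m ≠ n → Y m ≠ Y n)
    (hmir : ∀ m n, m ≠ n → 1 + Y m * Y n * (Y m + Y n - 3) ≠ 0) :
    (∑ a, ∑ b ∈ univ.filter (fun b => b ≠ a), Real.log ‖chg ζ a - chg ζ b‖)
        + ∑ a, Real.log (rad R a) =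
      (∑ m, ∑ n ∈ univ.filter (fun n => n ≠ m),
        (4 * Real.log |Y m - Y n| + 2 * Real.log (1 + Y m * Y n * (Y m + Y n - 3))))
      + ∑ m, (4 * Real.log (R m) + 2 * Real.log (Y m * (4 - Y m))
        + 2 * Real.log (1 + Y m ^ 2 * (2 * Y m - 3))) := by
  have hfil : ∀ {k : ℕ} (f : Fin k → Fin k → ℝ),
      ∑ a, ∑ b ∈ univ.filter (fun b => b ≠ a), f a b = ∑ a, ∑ b, f a b - ∑ a, f a a := by
    intro k f
    rw [← Finset.sum_sub_distrib]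
    refine Finset.sum_congr rfl fun a _ => ?_
    rw [← Finset.sum_filter_add_sum_filter_not univ (fun b => b ≠ a) (f a)]
    have h : univ.filter (fun b => ¬ (b ≠ a)) = {a} := by
      ext b
      simp
    rw [h, Finset.sum_singleton]
    ring
  rw [hfil]
  have hdiag : ∑ a : Fin (M * 4), Real.log ‖chg ζ a - chg ζ a‖ = 0 := by
    simp
  rw [hdiag, sub_zero]
  have hdouble : ∑ a : Fin (M * 4), ∑ b, Real.log ‖chg ζ a - chg ζ b‖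
      = ∑ m, ∑ n, ∑ s, ∑ s', Real.log ‖ch (ζ m) s - ch (ζ n) s'‖ := by
    have e1 : ∀ a : Fin (M * 4), ∑ b, Real.log ‖chg ζ a - chg ζ b‖
        = ∑ n, ∑ s', Real.log ‖chg ζ a - ch (ζ n) s'‖ := fun a =>
      sum_chg (fun n s' => Real.log ‖chg ζ a - ch (ζ n) s'‖)
    simp_rw [e1]
    have e2 := sum_chg (M := M)
      (fun m s => ∑ n, ∑ s', Real.log ‖ch (ζ m) s - ch (ζ n) s'‖)
    refine e2.trans ?_
    refine Finset.sum_congr rfl fun m _ => ?_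
    exact Finset.sum_comm
  have hrad : ∑ a, Real.log (rad R a) = ∑ m, 4 * Real.log (R m) := by
    have e2 := sum_chg (M := M) (fun m _ => Real.log (R m))
    refine e2.trans ?_
    refine Finset.sum_congr rfl fun m _ => ?_
    rw [Finset.sum_const, Finset.card_univ, Fintype.card_fin, nsmul_eq_mul]
    norm_num
  have hoff : ∀ m n, m ≠ n → ∑ s, ∑ s', Real.log ‖ch (ζ m) s - ch (ζ n) s'‖
      = 4 * Real.log |Y m - Y n| + 2 * Real.log (1 + Y m * Y n * (Y m + Y n - 3)) := by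
    intro m n hmn
    have e : ∀ s, ∑ s', Real.log ‖ch (ζ m) s - ch (ζ n) s'‖ = Real.log |Y m - Y n|
        + Real.log (1 + Y m * Y n * (Y m + Y n - 3)) / 2 := fun s => by
      have h := row_log (hζ m) (hζ n) (by rw [hY, hY]; exact hinj m n hmn)
        (by rw [hY, hY]; exact hmir m n hmn) s
      rw [hY, hY] at h
      exact h
    simp_rw [e]
    rw [Finset.sum_const, Finset.card_univ, Fintype.card_fin, nsmul_eq_mul]
    push_cast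
    ring
  have hself : ∀ m, ∑ s, ∑ s', Real.log ‖ch (ζ m) s - ch (ζ m) s'‖
      = 2 * Real.log (Y m * (4 - Y m)) + 2 * Real.log (1 + Y m ^ 2 * (2 * Y m - 3)) := by
    intro m
    have e : ∀ s, ∑ s', Real.log ‖ch (ζ m) s - ch (ζ m) s'‖ = Real.log (Y m * (4 - Y m)) / 2
        + Real.log (1 + Y m ^ 2 * (2 * Y m - 3)) / 2 := fun s => by
      have h := row_self (hζ m) (by rw [hY]; exact h0 m) (by rw [hY]; exact h4 m)
        (by rw [hY]; exact h1 m) s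
      rw [hY] at h
      exact h
    simp_rw [e]
    rw [Finset.sum_const, Finset.card_univ, Fintype.card_fin, nsmul_eq_mul]
    push_cast
    ring
  rw [hdouble, hrad]
  have hsplit : ∑ m, ∑ n, ∑ s, ∑ s', Real.log ‖ch (ζ m) s - ch (ζ n) s'‖
      = (∑ m, ∑ n ∈ univ.filter (fun n => n ≠ m),
        ∑ s, ∑ s', Real.log ‖ch (ζ m) s - ch (ζ n) s'‖)
        + ∑ m, ∑ s, ∑ s', Real.log ‖ch (ζ m) s - ch (ζ m) s'‖ := by
    rw [hfil]
    ring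
  rw [hsplit, add_assoc, ← Finset.sum_add_distrib]
  congr 1
  · refine Finset.sum_congr rfl fun m _ => Finset.sum_congr rfl fun n hn => ?_
    exact hoff m n (Ne.symm (Finset.mem_filter.1 hn).2)
  · refine Finset.sum_congr rfl fun m _ => ?_
    rw [hself]
    ring

/-- The charges are distinct. -/
theorem chg_injective {M : ℕ} (ζ : Fin M → ℂ) (hζ : ∀ m, ‖ζ m‖ = 1) (Y : Fin M → ℝ)
    (hY : ∀ m, ‖1 - ζ m‖ ^ 2 = Y m) (h0 : ∀ m, 0 < Y m) (h4 : ∀ m, Y m < 4)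
    (h1 : ∀ m, Y m ≠ 1) (hinj : ∀ m n, m ≠ n → Y m ≠ Y n)
    (hmir : ∀ m n, m ≠ n → 1 + Y m * Y n * (Y m + Y n - 3) ≠ 0) :
    Function.Injective (chg ζ) := by
  -- the product of a row
  have hrow : ∀ (z η : ℂ) (s s' : Fin 4), ch z s = ch η s' →
      z = η ∨ z = (starRingEnd ℂ) η ∨ z = 1 - η ∨ z = 1 - (starRingEnd ℂ) η := by
    intro z η s s' h
    have h2 := row (fun x => if x = 0 then 1 else 0) z η s
    beta_reduce at h2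
    have h3 : (1 : ℝ) ≤ ∑ s', (if ‖ch z s - ch η s'‖ = 0 then (1 : ℝ) else 0) := by
      refine le_trans (le_of_eq ?_) (Finset.single_le_sum
        (f := fun s' => if ‖ch z s - ch η s'‖ = 0 then (1 : ℝ) else 0)
        (fun i _ => by split_ifs <;> norm_num) (Finset.mem_univ s'))
      rw [h, sub_self, norm_zero, if_pos rfl]
    rw [h2] at h3
    by_contra hcon
    push Not at hcon
    obtain ⟨c1, c2, c3, c4⟩ := hcon
    rw [if_neg (norm_ne_zero_iff.2 (sub_ne_zero.2 c1)),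
      if_neg (norm_ne_zero_iff.2 (sub_ne_zero.2 c2)),
      if_neg (norm_ne_zero_iff.2 (sub_ne_zero.2 c3)),
      if_neg (norm_ne_zero_iff.2 (sub_ne_zero.2 c4))] at h3
    norm_num at h3
  intro a b hab
  have hm : (finProdFinEquiv.symm a).1 = (finProdFinEquiv.symm b).1 := by
    by_contra hne
    rcases hrow _ _ _ _ hab with h | h | h | h
    · have h5 := own (hζ (finProdFinEquiv.symm a).1) (hζ (finProdFinEquiv.symm b).1)
      have h6 : ‖ζ (finProdFinEquiv.symm a).1 - ζ (finProdFinEquiv.symm b).1‖ = 0 := by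
        rw [h, sub_self, norm_zero]
      rw [h6, zero_mul, hY, hY] at h5
      have h7 := abs_eq_zero.1 h5.symm
      exact hinj _ _ hne (by linarith)
    · have h5 := own (hζ (finProdFinEquiv.symm a).1) (hζ (finProdFinEquiv.symm b).1)
      have h6 : ‖ζ (finProdFinEquiv.symm a).1
          - (starRingEnd ℂ) (ζ (finProdFinEquiv.symm b).1)‖ = 0 := by
        rw [h, sub_self, norm_zero]
      rw [h6, mul_zero, hY, hY] at h5
      have h7 := abs_eq_zero.1 h5.symm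
      exact hinj _ _ hne (by linarith)
    · have h5 := mir (hζ (finProdFinEquiv.symm a).1) (hζ (finProdFinEquiv.symm b).1)
      have h6 : ‖ζ (finProdFinEquiv.symm a).1 - (1 - ζ (finProdFinEquiv.symm b).1)‖ = 0 := by
        rw [h, sub_self, norm_zero]
      rw [h6, zero_mul, hY, hY] at h5
      exact hmir _ _ hne (by rw [← h5]; norm_num)
    · have h5 := mir (hζ (finProdFinEquiv.symm a).1) (hζ (finProdFinEquiv.symm b).1)
      have h6 : ‖ζ (finProdFinEquiv.symm a).1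
          - (1 - (starRingEnd ℂ) (ζ (finProdFinEquiv.symm b).1))‖ = 0 := by
        rw [h, sub_self, norm_zero]
      rw [h6, mul_zero, hY, hY] at h5
      exact hmir _ _ hne (by rw [← h5]; norm_num)
  -- the same quadruple
  have hs : (finProdFinEquiv.symm a).2 = (finProdFinEquiv.symm b).2 := by
    set m := (finProdFinEquiv.symm b).1 with hmd
    have h2 : ch (ζ m) (finProdFinEquiv.symm a).2 = ch (ζ m) (finProdFinEquiv.symm b).2 := by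
      have h3 : ch (ζ (finProdFinEquiv.symm a).1) (finProdFinEquiv.symm a).2
          = ch (ζ m) (finProdFinEquiv.symm b).2 := hab
      rw [hm] at h3
      exact h3
    have hc := circ (hζ m)
    have hyy := y_eq (hζ m)
    rw [hY] at hyy
    have hre : (ζ m).re ≠ 1 / 2 := fun h => h1 m (by rw [hyy, h]; norm_num)
    have him : (ζ m).im ≠ 0 := fun h => by
      rw [h] at hc
      have h5 : (ζ m).re ^ 2 = 1 := by linarith
      have h6 : (ζ m).re = 1 ∨ (ζ m).re = -1 := by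
        have h7 : ((ζ m).re - 1) * ((ζ m).re + 1) = 0 := by linarith
        rcases mul_eq_zero.1 h7 with h8 | h8
        · exact Or.inl (by linarith)
        · exact Or.inr (by linarith)
      rcases h6 with h6 | h6
      · have := h0 m
        rw [hyy, h6] at this
        norm_num at this
      · have := h4 m
        rw [hyy, h6] at this
        norm_num at this
    generalize (finProdFinEquiv.symm a).2 = s at h2 ⊢
    generalize (finProdFinEquiv.symm b).2 = s' at h2 ⊢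
    have hsr : ∀ s : Fin 4, (ch (ζ m) s).re = ![(ζ m).re, (ζ m).re, 1 - (ζ m).re, 1 - (ζ m).re] s :=
      fun s => by fin_cases s <;> simp [ch]
    have hsi : ∀ s : Fin 4, (ch (ζ m) s).im = ![(ζ m).im, -(ζ m).im, -(ζ m).im, (ζ m).im] s :=
      fun s => by fin_cases s <;> simp [ch]
    have hr := congrArg Complex.re h2
    have hi := congrArg Complex.im h2
    rw [hsr, hsr] at hr
    rw [hsi, hsi] at hi
    fin_cases s <;> fin_cases s' <;> dsimp at hr hi ⊢ <;>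
      first
        | rfl
        | (exfalso; exact him (by linarith))
        | (exfalso; exact hre (by linarith))
  have : finProdFinEquiv.symm a = finProdFinEquiv.symm b := Prod.ext hm hs
  exact finProdFinEquiv.symm.injective this

end H23.ZZ
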