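import Pool.Agent.H23.ZZ.Cnd

/-!
# The energy inequality, by regular polygons

The circles are replaced by regular `N`-gons, the mean of `log (|A + b x| ^ 2 + δ ^ 2)` over the `N`-th roots of
unity `x` is computed by factoring `|A + b x| ^ 2 + δ ^ 2 = |p + q e x| ^ 2`, and `cnd` is applied to the
`N`-gons and the points; then `N → ∞`.
-/

open Finset Polynomial

namespace H23.ZZ

/-- The factorisation of the smoothed distance on the unit circle. -/
theorem fact (A b : ℂ) {δ : ℝ} (hδ : 0 < δ) :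
    ∃ p q : ℝ, ∃ e : ℂ, ‖e‖ = 1 ∧ 0 ≤ q ∧ max ‖A‖ ‖b‖ ≤ p ∧ p ≤ max ‖A‖ ‖b‖ + δ ∧ q + δ ≤ p ∧
      ‖A‖ ^ 2 + δ ^ 2 ≤ p ^ 2 ∧
      ∀ x : ℂ, ‖x‖ = 1 → ‖A + b * x‖ ^ 2 + δ ^ 2 = ‖(p : ℂ) + x * (q * e)‖ ^ 2 := by
  obtain ⟨e, he, het⟩ : ∃ e : ℂ, ‖e‖ = 1 ∧
      ((‖A‖ * ‖b‖ : ℝ) : ℂ) * e = (starRingEnd ℂ) A * b := by
    by_cases h : (starRingEnd ℂ) A * b = 0
    · refine ⟨1, norm_one, ?_⟩
      have h1 : ‖A‖ * ‖b‖ = 0 := by
        rw [← RCLike.norm_conj (K := ℂ) A, ← norm_mul, h, norm_zero]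
      rw [h, h1, Complex.ofReal_zero, zero_mul]
    · have h0 : ‖A‖ * ‖b‖ ≠ 0 := by
        rw [← RCLike.norm_conj (K := ℂ) A, ← norm_mul]
        exact norm_ne_zero_iff.2 h
      refine ⟨(starRingEnd ℂ) A * b / ((‖A‖ * ‖b‖ : ℝ) : ℂ), ?_, ?_⟩
      · rw [norm_div, Complex.norm_real, norm_mul, RCLike.norm_conj, Real.norm_of_nonneg
          (by positivity), div_self h0]
      · rw [mul_div_cancel₀]
        exact_mod_cast h0
  set u : ℝ := Real.sqrt ((‖A‖ + ‖b‖) ^ 2 + δ ^ 2) with hu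
  set v : ℝ := Real.sqrt ((‖A‖ - ‖b‖) ^ 2 + δ ^ 2) with hv
  have hA := norm_nonneg A
  have hb := norm_nonneg b
  have hu2 : u ^ 2 = (‖A‖ + ‖b‖) ^ 2 + δ ^ 2 := Real.sq_sqrt (by positivity)
  have hv2 : v ^ 2 = (‖A‖ - ‖b‖) ^ 2 + δ ^ 2 := Real.sq_sqrt (by positivity)
  have hu0 : 0 ≤ u := Real.sqrt_nonneg _
  have hv0 : 0 ≤ v := Real.sqrt_nonneg _
  have huv : v ≤ u := by
    refine Real.sqrt_le_sqrt ?_
    nlinarith [mul_nonneg hA hb]
  have hvδ : δ ≤ v := by
    refine Real.le_sqrt_of_sq_le ?_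
    nlinarith [sq_nonneg (‖A‖ - ‖b‖)]
  have hu1 : ‖A‖ + ‖b‖ ≤ u := by
    refine Real.le_sqrt_of_sq_le ?_
    nlinarith [sq_nonneg δ]
  have hu3 : u ≤ ‖A‖ + ‖b‖ + δ := by
    refine Real.sqrt_le_iff.2 ⟨by positivity, ?_⟩
    nlinarith [mul_nonneg hA hδ.le, mul_nonneg hb hδ.le]
  have hv1 : |‖A‖ - ‖b‖| ≤ v := by
    refine Real.le_sqrt_of_sq_le ?_
    rw [sq_abs]
    nlinarith [sq_nonneg δ]
  have hv3 : v ≤ |‖A‖ - ‖b‖| + δ := by
    refine Real.sqrt_le_iff.2 ⟨by positivity, ?_⟩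
    have h1 := sq_abs (‖A‖ - ‖b‖)
    nlinarith [mul_nonneg (abs_nonneg (‖A‖ - ‖b‖)) hδ.le]
  have hmax : max ‖A‖ ‖b‖ = (‖A‖ + ‖b‖ + |‖A‖ - ‖b‖|) / 2 := by
    rcases le_total ‖A‖ ‖b‖ with h | h
    · rw [max_eq_right h, abs_of_nonpos (by linarith)]
      ring
    · rw [max_eq_left h, abs_of_nonneg (by linarith)]
      ring
  have hp0 : 0 < (u + v) / 2 := by linarith
  have hpm : max ‖A‖ ‖b‖ ≤ (u + v) / 2 := by rw [hmax]; linarith
  refine ⟨(u + v) / 2, (u - v) / 2, e, he, by linarith, hpm,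
    by rw [hmax]; linarith, by linarith, ?_, fun x hx => ?_⟩
  · set p := (u + v) / 2 with hp
    have h1 : ‖A‖ ≤ p := (le_max_left _ _).trans hpm
    have h2 : ‖b‖ ≤ p := (le_max_right _ _).trans hpm
    have h3 : (p ^ 2 - ‖A‖ ^ 2) * (p ^ 2 - ‖b‖ ^ 2) = p ^ 2 * δ ^ 2 := by
      have h4 : p ^ 2 + ((u - v) / 2) ^ 2 = ‖A‖ ^ 2 + ‖b‖ ^ 2 + δ ^ 2 := by
        rw [hp]
        linear_combination (1 / 2) * hu2 + (1 / 2) * hv2
      have h5 : p * ((u - v) / 2) = ‖A‖ * ‖b‖ := by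
        rw [hp]
        linear_combination (1 / 4) * hu2 - (1 / 4) * hv2
      have h6 : p ^ 2 * ((u - v) / 2) ^ 2 = (‖A‖ * ‖b‖) ^ 2 := by rw [← h5]; ring
      linear_combination p ^ 2 * h4 - h6
    have h4 : 0 ≤ p ^ 2 - ‖A‖ ^ 2 := by nlinarith
    have h5 : p ^ 2 * δ ^ 2 ≤ (p ^ 2 - ‖A‖ ^ 2) * p ^ 2 := by
      rw [← h3]
      exact mul_le_mul_of_nonneg_left (by nlinarith [sq_nonneg ‖b‖]) h4
    have h6 : δ ^ 2 ≤ p ^ 2 - ‖A‖ ^ 2 := by
      have h7 : 0 < p ^ 2 := by positivity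
      nlinarith
    linarith
  · have h1 : ‖A + b * x‖ ^ 2 = ‖A‖ ^ 2 + ‖b‖ ^ 2 + 2 * ((starRingEnd ℂ) A * b * x).re := by
      have h3 : ‖b * x‖ ^ 2 = ‖b‖ ^ 2 := by rw [norm_mul, hx, mul_one]
      rw [← h3, ← Complex.normSq_eq_norm_sq, ← Complex.normSq_eq_norm_sq,
        ← Complex.normSq_eq_norm_sq, Complex.normSq_add]
      have h4 : (A * (starRingEnd ℂ) (b * x)).re = ((starRingEnd ℂ) A * b * x).re := by
        rw [← Complex.conj_re (A * (starRingEnd ℂ) (b * x)), map_mul, Complex.conj_conj, mul_assoc]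
      rw [h4]
    have h2 : ‖((((u + v) / 2 : ℝ)) : ℂ) + x * ((((u - v) / 2 : ℝ) : ℂ) * e)‖ ^ 2
        = ((u + v) / 2) ^ 2 + ((u - v) / 2) ^ 2
          + 2 * ((u + v) / 2 * ((u - v) / 2)) * (e * x).re := by
      rw [← Complex.normSq_eq_norm_sq, Complex.normSq_add, Complex.normSq_ofReal]
      have h3 : Complex.normSq (x * ((((u - v) / 2 : ℝ) : ℂ) * e)) = ((u - v) / 2) ^ 2 := by
        rw [Complex.normSq_eq_norm_sq, norm_mul, norm_mul, hx, he, Complex.norm_real, mul_one,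
          one_mul, Real.norm_eq_abs, sq_abs]
      have h4 : ((((u + v) / 2 : ℝ) : ℂ) * (starRingEnd ℂ)
          (x * ((((u - v) / 2 : ℝ) : ℂ) * e))).re = (u + v) / 2 * ((u - v) / 2) * (e * x).re := by
        rw [Complex.re_ofReal_mul, Complex.conj_re]
        have h5 : x * ((((u - v) / 2 : ℝ) : ℂ) * e) = (((u - v) / 2 : ℝ) : ℂ) * (e * x) := by ring
        rw [h5, Complex.re_ofReal_mul]
        ring
      rw [h3, h4]
      ring
    have h3 : ((starRingEnd ℂ) A * b * x).re = ‖A‖ * ‖b‖ * (e * x).re := by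
      rw [← het, mul_assoc, Complex.re_ofReal_mul]
    rw [h1, h2, h3]
    linear_combination (-(1 / 2) - (e * x).re / 2) * hu2 + (-(1 / 2) + (e * x).re / 2) * hv2

/-- The sum over the polygon. -/
theorem poly_sum (A b : ℂ) {δ : ℝ} (hδ : 0 < δ) {N : ℕ} (hN : 0 < N) :
    ∃ p q : ℝ, 0 ≤ q ∧ max ‖A‖ ‖b‖ ≤ p ∧ p ≤ max ‖A‖ ‖b‖ + δ ∧ q + δ ≤ p ∧
      ‖A‖ ^ 2 + δ ^ 2 ≤ p ^ 2 ∧
      ∑ x ∈ nthRootsFinset N (1 : ℂ), Real.log (‖A + b * x‖ ^ 2 + δ ^ 2)
        ≤ 2 * Real.log (p ^ N + q ^ N) ∧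
      2 * Real.log (p ^ N - q ^ N)
        ≤ ∑ x ∈ nthRootsFinset N (1 : ℂ), Real.log (‖A + b * x‖ ^ 2 + δ ^ 2) := by
  obtain ⟨p, q, e, he, hq0, hmp, hpm, hqp, hAp, hx⟩ := fact A b hδ
  have hp0 : 0 < p := by linarith
  have hprim : IsPrimitiveRoot (Complex.exp (2 * Real.pi * Complex.I / N)) N :=
    Complex.isPrimitiveRoot_exp N hN.ne'
  have hnorm : ∀ x ∈ nthRootsFinset N (1 : ℂ), ‖x‖ = 1 := fun x hx => by
    rw [mem_nthRootsFinset hN] at hx
    exact Complex.norm_eq_one_of_pow_eq_one hx hN.ne'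
  have hprod := hprim.pow_sub_pow_eq_prod_sub_mul (p : ℂ) (-((q : ℂ) * e)) hN
  have hlt : q ^ N < p ^ N := pow_lt_pow_left₀ (by linarith) hq0 hN.ne'
  have hqN : 0 ≤ q ^ N := by positivity
  have hn1 : ‖(p : ℂ) ^ N‖ = p ^ N := by
    rw [norm_pow, Complex.norm_real, Real.norm_of_nonneg hp0.le]
  have hn2 : ‖(-((q : ℂ) * e)) ^ N‖ = q ^ N := by
    rw [norm_pow, norm_neg, norm_mul, he, Complex.norm_real, Real.norm_of_nonneg hq0, mul_one]
  have hup : ‖(p : ℂ) ^ N - (-((q : ℂ) * e)) ^ N‖ ≤ p ^ N + q ^ N := by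
    rw [← hn1, ← hn2]
    exact norm_sub_le _ _
  have hlo : p ^ N - q ^ N ≤ ‖(p : ℂ) ^ N - (-((q : ℂ) * e)) ^ N‖ := by
    rw [← hn1, ← hn2]
    exact norm_sub_norm_le _ _
  have hfac : ∀ x ∈ nthRootsFinset N (1 : ℂ), (p : ℂ) - x * (-((q : ℂ) * e)) ≠ 0 := by
    have h1 : (p : ℂ) ^ N - (-((q : ℂ) * e)) ^ N ≠ 0 := by
      rw [← norm_pos_iff]
      linarith
    rw [hprod] at h1
    exact Finset.prod_ne_zero_iff.1 h1
  have hsum : ∑ x ∈ nthRootsFinset N (1 : ℂ), Real.log (‖A + b * x‖ ^ 2 + δ ^ 2)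
      = 2 * Real.log ‖(p : ℂ) ^ N - (-((q : ℂ) * e)) ^ N‖ := by
    rw [hprod, norm_prod, Real.log_prod (fun x hx => (norm_ne_zero_iff.2 (hfac x hx))),
      Finset.mul_sum]
    refine Finset.sum_congr rfl fun x hxX => ?_
    rw [hx x (hnorm x hxX), Real.log_pow, mul_neg, sub_neg_eq_add]
    norm_num
  refine ⟨p, q, hq0, hmp, hpm, hqp, hAp, ?_, ?_⟩
  · rw [hsum]
    have := Real.log_le_log (by linarith) hup
    linarith
  · rw [hsum]
    have := Real.log_le_log (by linarith) hlo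
    linarith

/-- Upper bound on the polygon. -/
theorem poly_upper (A : ℂ) {r δ : ℝ} (hr : 0 < r) (hδ : 0 < δ) {N : ℕ} (hN : 0 < N) :
    ∑ x ∈ nthRootsFinset N (1 : ℂ), Real.log (‖A + (-(r : ℂ)) * x‖ ^ 2 + δ ^ 2)
      ≤ 2 * N * (Real.log (max ‖A‖ r) + δ / r) + 2 * Real.log 2 := by
  obtain ⟨p, q, hq0, hmp, hpm, hqp, -, hup, -⟩ := poly_sum A (-(r : ℂ)) hδ hN
  have hb : ‖-(r : ℂ)‖ = r := by rw [norm_neg, Complex.norm_real, Real.norm_of_nonneg hr.le]
  rw [hb] at hmp hpm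
  have hm : 0 < max ‖A‖ r := lt_of_lt_of_le hr (le_max_right _ _)
  have hp0 : 0 < p := lt_of_lt_of_le hm hmp
  refine hup.trans ?_
  have h1 : p ^ N + q ^ N ≤ 2 * p ^ N := by
    have : q ^ N ≤ p ^ N := pow_le_pow_left₀ hq0 (by linarith) N
    linarith
  have h2 : Real.log (p ^ N + q ^ N) ≤ Real.log 2 + N * Real.log p := by
    refine (Real.log_le_log (by positivity) h1).trans (le_of_eq ?_)
    rw [Real.log_mul (by norm_num) (by positivity), Real.log_pow]
  have h3 : Real.log p ≤ Real.log (max ‖A‖ r) + δ / r := by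
    have h4 : Real.log p ≤ Real.log (max ‖A‖ r * (1 + δ / max ‖A‖ r)) := by
      refine Real.log_le_log hp0 (hpm.trans (le_of_eq ?_))
      field_simp
    rw [Real.log_mul hm.ne' (by positivity)] at h4
    have h5 : Real.log (1 + δ / max ‖A‖ r) ≤ δ / max ‖A‖ r := by
      have := Real.log_le_sub_one_of_pos (show 0 < 1 + δ / max ‖A‖ r by positivity)
      linarith
    have h6 : δ / max ‖A‖ r ≤ δ / r :=
      div_le_div_of_nonneg_left hδ.le hr (le_max_right _ _)
    linarith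
  have h4 : (N : ℝ) * Real.log p ≤ N * (Real.log (max ‖A‖ r) + δ / r) :=
    mul_le_mul_of_nonneg_left h3 (Nat.cast_nonneg _)
  nlinarith

/-- Lower bound on the polygon. -/
theorem poly_lower (A b : ℂ) {R δ : ℝ} (hR : ‖A‖ ≤ R) (hb : ‖b‖ ≤ 1) (hδ : 0 < δ) {N : ℕ}
    (hN : 0 < N) :
    N * Real.log (‖A‖ ^ 2 + δ ^ 2) - 2 * Real.log ((R + 1 + δ) / δ)
      ≤ ∑ x ∈ nthRootsFinset N (1 : ℂ), Real.log (‖A + b * x‖ ^ 2 + δ ^ 2) := by
  obtain ⟨p, q, hq0, hmp, hpm, hqp, hAp, -, hlo⟩ := poly_sum A b hδ hN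
  refine le_trans ?_ hlo
  have hA := norm_nonneg A
  have hp0 : 0 < p := by linarith
  have hR0 : 0 ≤ R := hA.trans hR
  have hpR : p ≤ R + 1 + δ := by
    refine hpm.trans ?_
    have : max ‖A‖ ‖b‖ ≤ R + 1 := max_le (by linarith) (by linarith)
    linarith
  have h1 : p ^ N * (δ / (R + 1 + δ)) ≤ p ^ N - q ^ N := by
    have h2 : q ^ N ≤ p ^ (N - 1) * q := by
      obtain ⟨n, rfl⟩ : ∃ n, N = n + 1 := ⟨N - 1, by omega⟩
      rw [Nat.add_sub_cancel, pow_succ]
      exact mul_le_mul_of_nonneg_right (pow_le_pow_left₀ hq0 (by linarith) n) hq0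
    have h3 : p ^ N = p ^ (N - 1) * p := by
      obtain ⟨n, rfl⟩ : ∃ n, N = n + 1 := ⟨N - 1, by omega⟩
      rw [Nat.add_sub_cancel, pow_succ]
    have h4 : p * (δ / (R + 1 + δ)) ≤ δ := by
      rw [mul_div_assoc', div_le_iff₀ (by positivity)]
      nlinarith
    have h5 : 0 < p ^ (N - 1) := by positivity
    rw [h3, mul_assoc]
    nlinarith
  have h2 : Real.log (p ^ N * (δ / (R + 1 + δ))) ≤ Real.log (p ^ N - q ^ N) :=
    Real.log_le_log (by positivity) h1
  rw [Real.log_mul (by positivity) (by positivity), Real.log_pow] at h2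
  have h3 : Real.log (δ / (R + 1 + δ)) = -Real.log ((R + 1 + δ) / δ) := by
    rw [← Real.log_inv, inv_div]
  have h4 : Real.log (‖A‖ ^ 2 + δ ^ 2) ≤ 2 * Real.log p := by
    refine (Real.log_le_log (by positivity) hAp).trans (le_of_eq ?_)
    rw [Real.log_pow]
    norm_num
  have h5 : (N : ℝ) * Real.log (‖A‖ ^ 2 + δ ^ 2) ≤ N * (2 * Real.log p) :=
    mul_le_mul_of_nonneg_left h4 (Nat.cast_nonneg _)
  rw [h3] at h2
  linarith

/-- **The energy inequality.** -/
theorem energy {d M : ℕ} (hd : 0 < d) (hM : 0 < M) (α : Fin d → ℂ) (hα : Function.Injective α)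
    (w : Fin M → ℂ) (hw : Function.Injective w) (r : Fin M → ℝ) (hr : ∀ a, 0 < r a)
    (hr1 : ∀ a, r a ≤ 1) :
    (1 / (d : ℝ) ^ 2) * (∑ i, ∑ j ∈ univ.filter (fun j => j ≠ i), Real.log ‖α i - α j‖)
      + (1 / (M : ℝ) ^ 2) * ((∑ a, ∑ b ∈ univ.filter (fun b => b ≠ a), Real.log ‖w a - w b‖)
          + ∑ a, Real.log (r a))
      - Real.log d / d - (2 / (d * M)) * ∑ a, 1 / r a
      ≤ (2 / ((d : ℝ) * M)) * ∑ i, ∑ a, Real.log (max ‖α i - w a‖ (r a)) := by
  have hd' : (0 : ℝ) < d := by exact_mod_cast hd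
  have hM' : (0 : ℝ) < M := by exact_mod_cast hM
  set δ : ℝ := 1 / d with hδd
  have hδ : 0 < δ := by positivity
  set R : ℝ := 1 + ∑ a, ∑ b, ‖w a - w b‖ with hR
  have hwR : ∀ a b, ‖w a - w b‖ ≤ ∑ a, ∑ b, ‖w a - w b‖ := fun a b =>
    (Finset.single_le_sum (f := fun b => ‖w a - w b‖) (fun _ _ => norm_nonneg _)
      (Finset.mem_univ b)).trans
      (Finset.single_le_sum (f := fun a => ∑ b, ‖w a - w b‖)
        (fun _ _ => Finset.sum_nonneg fun _ _ => norm_nonneg _) (Finset.mem_univ a))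
  have hR0 : 0 ≤ ∑ a, ∑ b, ‖w a - w b‖ :=
    Finset.sum_nonneg fun _ _ => Finset.sum_nonneg fun _ _ => norm_nonneg _
  set C : ℝ := Real.log ((R + 1 + δ) / δ) with hC
  have hC0 : 0 ≤ C := Real.log_nonneg (by rw [le_div_iff₀ hδ]; linarith)
  -- the three parts
  set Sα : ℝ := ∑ i, ∑ j ∈ univ.filter (fun j => j ≠ i), Real.log ‖α i - α j‖ with hSα
  set Sw : ℝ := ∑ a, ∑ b ∈ univ.filter (fun b => b ≠ a), Real.log ‖w a - w b‖ with hSw
  set Sr : ℝ := ∑ a, Real.log (r a) with hSr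
  set Sm : ℝ := ∑ i, ∑ a, Real.log (max ‖α i - w a‖ (r a)) with hSm
  set Si : ℝ := ∑ a, 1 / r a with hSi
  have key : ∀ N : ℕ, 0 < N →
      (1 / (d : ℝ) ^ 2) * Sα + (1 / (M : ℝ) ^ 2) * (Sw + Sr) - Real.log d / d
        - (2 / (d * M)) * Si - (2 / ((d : ℝ) * M)) * Sm ≤ (2 * Real.log 2 + 2 * C) / N := by
    intro N hN
    have hN' : (0 : ℝ) < N := by exact_mod_cast hN
    set X := nthRootsFinset N (1 : ℂ) with hX
    have hcard : (X.card : ℝ) = N := by
      rw [(Complex.isPrimitiveRoot_exp N hN.ne').card_nthRootsFinset]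
    have hnorm : ∀ x ∈ X, ‖x‖ = 1 := fun x hx => by
      rw [hX, mem_nthRootsFinset hN] at hx
      exact Complex.norm_eq_one_of_pow_eq_one hx hN.ne'
    -- the kernel
    set K : ℂ → ℂ → ℝ := fun z y => Real.log (‖z - y‖ ^ 2 + δ ^ 2) with hK
    have hKs : ∀ z y, K z y = K y z := fun z y => by rw [hK]; beta_reduce; rw [norm_sub_rev]
    -- cnd
    have h1 := cnd ((univ : Finset (Fin d)).disjSum ((univ : Finset (Fin M)) ×ˢ X))
      (Sum.elim (fun _ => 1 / (d : ℝ)) (fun _ => -(1 / ((M : ℝ) * N))))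
      (Sum.elim α (fun p => w p.1 + (r p.1 : ℂ) * p.2))
      (by
        rw [Finset.sum_disjSum]
        simp only [Sum.elim_inl, Sum.elim_inr, Finset.sum_const, Finset.card_product,
          Finset.card_univ, Fintype.card_fin, nsmul_eq_mul, Nat.cast_mul, hcard]
        field_simp
        ring) (u := δ ^ 2) (by positivity)
    simp only [Finset.sum_disjSum, Sum.elim_inl, Sum.elim_inr, Finset.sum_product,
      Finset.sum_add_distrib] at h1
    -- rewrite
    set T1 : ℝ := ∑ i, ∑ j, K (α i) (α j) with hT1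
    set T2 : ℝ := ∑ i, ∑ a, ∑ x ∈ X, K (α i) (w a + (r a : ℂ) * x) with hT2
    set T3 : ℝ := ∑ a, ∑ x ∈ X, ∑ b, ∑ y ∈ X, K (w a + (r a : ℂ) * x) (w b + (r b : ℂ) * y)
      with hT3
    have h2 : 1 / (d : ℝ) ^ 2 * T1 - 2 * (1 / (d * (M * N))) * T2
        + 1 / ((M : ℝ) * N) ^ 2 * T3 ≤ 0 := by
      have e1 : ∑ i, ∑ j, 1 / (d : ℝ) * (1 / d) * Real.log (‖α i - α j‖ ^ 2 + δ ^ 2)
          = 1 / (d : ℝ) ^ 2 * T1 := by
        rw [hT1, Finset.mul_sum]
        refine Finset.sum_congr rfl fun i _ => ?_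
        rw [Finset.mul_sum]
        refine Finset.sum_congr rfl fun j _ => ?_
        rw [hK]
        ring
      have e2 : ∑ i, ∑ a, ∑ x ∈ X, 1 / (d : ℝ) * -(1 / ((M : ℝ) * N)) *
            Real.log (‖α i - (w a + (r a : ℂ) * x)‖ ^ 2 + δ ^ 2)
          = -(1 / (d * (M * N))) * T2 := by
        rw [hT2, Finset.mul_sum]
        refine Finset.sum_congr rfl fun i _ => ?_
        rw [Finset.mul_sum]
        refine Finset.sum_congr rfl fun a _ => ?_
        rw [Finset.mul_sum]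
        refine Finset.sum_congr rfl fun x _ => ?_
        rw [hK]
        beta_reduce
        field_simp
      have e3 : ∑ a, ∑ x ∈ X, ∑ i, -(1 / ((M : ℝ) * N)) * (1 / (d : ℝ)) *
            Real.log (‖w a + (r a : ℂ) * x - α i‖ ^ 2 + δ ^ 2)
          = -(1 / (d * (M * N))) * T2 := by
        rw [hT2, Finset.mul_sum]
        have : ∀ i, ∑ a, ∑ x ∈ X, K (α i) (w a + (r a : ℂ) * x)
            = ∑ a, ∑ x ∈ X, K (w a + (r a : ℂ) * x) (α i) := fun i =>
          Finset.sum_congr rfl fun a _ => Finset.sum_congr rfl fun x _ => hKs _ _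
        simp_rw [this, Finset.mul_sum]
        rw [Finset.sum_comm]
        rw [Finset.sum_comm]
        rw [Finset.sum_comm (s := (univ : Finset (Fin d)))]
        refine Finset.sum_congr rfl fun a _ => ?_
        rw [Finset.sum_comm]
        refine Finset.sum_congr rfl fun i _ => Finset.sum_congr rfl fun x _ => ?_
        rw [hK]
        beta_reduce
        field_simp
      have e4 : ∑ a, ∑ x ∈ X, ∑ b, ∑ y ∈ X, -(1 / ((M : ℝ) * N)) * -(1 / ((M : ℝ) * N)) *
            Real.log (‖w a + (r a : ℂ) * x - (w b + (r b : ℂ) * y)‖ ^ 2 + δ ^ 2)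
          = 1 / ((M : ℝ) * N) ^ 2 * T3 := by
        rw [hT3, Finset.mul_sum]
        refine Finset.sum_congr rfl fun a _ => ?_
        rw [Finset.mul_sum]
        refine Finset.sum_congr rfl fun x _ => ?_
        rw [Finset.mul_sum]
        refine Finset.sum_congr rfl fun b _ => ?_
        rw [Finset.mul_sum]
        refine Finset.sum_congr rfl fun y _ => ?_
        rw [hK]
        ring
      rw [e1, e2, e3, e4] at h1
      linarith
    -- T1
    have h3 : 2 * d * Real.log δ + 2 * Sα ≤ T1 := by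
      have : ∀ i, 2 * Real.log δ + 2 * ∑ j ∈ univ.filter (fun j => j ≠ i), Real.log ‖α i - α j‖
          ≤ ∑ j, K (α i) (α j) := fun i => by
        rw [← Finset.sum_filter_add_sum_filter_not univ (fun j => j ≠ i), add_comm,
          Finset.mul_sum]
        refine add_le_add (Finset.sum_le_sum fun j hj => ?_) ?_
        · have hji : j ≠ i := (Finset.mem_filter.1 hj).2
          have h5 : 0 < ‖α i - α j‖ := norm_pos_iff.2 (sub_ne_zero.2 fun h => hji (hα h).symm)
          rw [hK]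
          beta_reduce
          have h6 : 2 * Real.log ‖α i - α j‖ = Real.log (‖α i - α j‖ ^ 2) := by
            rw [Real.log_pow]
            norm_num
          rw [h6]
          exact Real.log_le_log (by positivity) (by nlinarith [sq_nonneg δ])
        · have h5 : univ.filter (fun j => ¬ (j ≠ i)) = {i} := by
            ext j
            simp
          rw [h5, Finset.sum_singleton, hK]
          beta_reduce
          rw [sub_self, norm_zero, zero_pow two_ne_zero, zero_add, Real.log_pow]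
          norm_num
      have h4 := Finset.sum_le_sum fun i (_ : i ∈ (univ : Finset (Fin d))) => this i
      rw [Finset.sum_add_distrib, Finset.sum_const, Finset.card_univ, Fintype.card_fin,
        nsmul_eq_mul, ← Finset.mul_sum] at h4
      linarith
    -- T2
    have h4 : T2 ≤ 2 * N * Sm + 2 * N * (d * δ * Si) + d * M * (2 * Real.log 2) := by
      have : ∀ i a, ∑ x ∈ X, K (α i) (w a + (r a : ℂ) * x)
          ≤ 2 * N * Real.log (max ‖α i - w a‖ (r a)) + 2 * N * (δ * (1 / r a))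
            + 2 * Real.log 2 := fun i a => by
        have h5 := poly_upper (α i - w a) (hr a) hδ hN
        have h6 : ∑ x ∈ X, K (α i) (w a + (r a : ℂ) * x)
            = ∑ x ∈ nthRootsFinset N (1 : ℂ),
              Real.log (‖α i - w a + (-(r a : ℂ)) * x‖ ^ 2 + δ ^ 2) := by
          refine Finset.sum_congr rfl fun x _ => ?_
          rw [hK]
          beta_reduce
          congr 4
          ring
        rw [h6]
        refine h5.trans (le_of_eq ?_)
        ring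
      refine (Finset.sum_le_sum fun i _ => Finset.sum_le_sum fun a _ => this i a).trans
        (le_of_eq ?_)
      simp only [Finset.sum_add_distrib, Finset.sum_const, Finset.card_univ, Fintype.card_fin,
        nsmul_eq_mul, ← Finset.mul_sum]
      ring
    -- T3
    have h5 : 2 * N ^ 2 * (Sw + Sr) - M ^ 2 * (4 * N * C) ≤ T3 := by
      have hone : ∀ a b (x : ℂ), x ∈ X →
          N * Real.log (‖w a + (r a : ℂ) * x - w b‖ ^ 2 + δ ^ 2) - 2 * C
            ≤ ∑ y ∈ X, K (w a + (r a : ℂ) * x) (w b + (r b : ℂ) * y) := fun a b x hx => by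
        have hb1 : ‖-(r b : ℂ)‖ ≤ 1 := by
          rw [norm_neg, Complex.norm_real, Real.norm_of_nonneg (hr b).le]
          exact hr1 b
        have hA1 : ‖w a + (r a : ℂ) * x - w b‖ ≤ R := by
          have : w a + (r a : ℂ) * x - w b = (r a : ℂ) * x + (w a - w b) := by ring
          rw [this]
          refine (norm_add_le _ _).trans (add_le_add ?_ (hwR a b))
          rw [norm_mul, hnorm x hx, mul_one, Complex.norm_real, Real.norm_of_nonneg (hr a).le]
          exact hr1 a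
        refine (poly_lower (w a + (r a : ℂ) * x - w b) (-(r b : ℂ)) hA1 hb1 hδ hN).trans
          (le_of_eq ?_)
        refine Finset.sum_congr rfl fun y _ => ?_
        rw [hK]
        beta_reduce
        congr 4
        ring
      have htwo : ∀ a b, a ≠ b → 2 * N ^ 2 * Real.log ‖w a - w b‖ - 4 * N * C
          ≤ ∑ x ∈ X, ∑ y ∈ X, K (w a + (r a : ℂ) * x) (w b + (r b : ℂ) * y) := fun a b hab => by
        refine le_trans ?_ (Finset.sum_le_sum fun x hx => hone a b x hx)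
        rw [Finset.sum_sub_distrib, Finset.sum_const, nsmul_eq_mul, hcard, ← Finset.mul_sum]
        have ha1 : ‖(r a : ℂ)‖ ≤ 1 := by
          rw [Complex.norm_real, Real.norm_of_nonneg (hr a).le]
          exact hr1 a
        have h6 := poly_lower (w a - w b) (r a : ℂ) (R := R)
          ((hwR a b).trans (by rw [hR]; linarith)) ha1 hδ hN
        have h7 : ∑ x ∈ nthRootsFinset N (1 : ℂ),
              Real.log (‖w a - w b + (r a : ℂ) * x‖ ^ 2 + δ ^ 2)
            = ∑ x ∈ X, Real.log (‖w a + (r a : ℂ) * x - w b‖ ^ 2 + δ ^ 2) := by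
          refine Finset.sum_congr rfl fun x _ => ?_
          congr 4
          ring
        rw [h7] at h6
        have h8 : 0 < ‖w a - w b‖ := norm_pos_iff.2 (sub_ne_zero.2 fun h => hab (hw h))
        have h9 : 2 * Real.log ‖w a - w b‖ ≤ Real.log (‖w a - w b‖ ^ 2 + δ ^ 2) := by
          have : 2 * Real.log ‖w a - w b‖ = Real.log (‖w a - w b‖ ^ 2) := by
            rw [Real.log_pow]
            norm_num
          rw [this]
          exact Real.log_le_log (by positivity) (by nlinarith [sq_nonneg δ])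
        have h10 := mul_le_mul_of_nonneg_left h9 hN'.le
        have h11 : (N : ℝ) * (2 * N * Real.log ‖w a - w b‖ - 2 * C) ≤ N * ∑ x ∈ X,
            Real.log (‖w a + (r a : ℂ) * x - w b‖ ^ 2 + δ ^ 2) :=
          mul_le_mul_of_nonneg_left (by linarith) hN'.le
        linarith
      have hthree : ∀ a, 2 * N ^ 2 * Real.log (r a) - 4 * N * C
          ≤ ∑ x ∈ X, ∑ y ∈ X, K (w a + (r a : ℂ) * x) (w a + (r a : ℂ) * y) := fun a => by
        refine le_trans ?_ (Finset.sum_le_sum fun x hx => hone a a x hx)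
        have h6 : ∀ x ∈ X, N * (2 * Real.log (r a)) - 2 * C
            ≤ N * Real.log (‖w a + (r a : ℂ) * x - w a‖ ^ 2 + δ ^ 2) - 2 * C := fun x hx => by
          have h7 : ‖w a + (r a : ℂ) * x - w a‖ = r a := by
            rw [add_sub_cancel_left, norm_mul, hnorm x hx, mul_one, Complex.norm_real,
              Real.norm_of_nonneg (hr a).le]
          rw [h7]
          have h8 : 2 * Real.log (r a) ≤ Real.log ((r a) ^ 2 + δ ^ 2) := by
            have : 2 * Real.log (r a) = Real.log ((r a) ^ 2) := by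
              rw [Real.log_pow]
              norm_num
            rw [this]
            have := hr a
            exact Real.log_le_log (by positivity) (by nlinarith [sq_nonneg δ])
          have := mul_le_mul_of_nonneg_left h8 hN'.le
          linarith
        refine le_trans ?_ (Finset.sum_le_sum h6)
        rw [Finset.sum_const, nsmul_eq_mul, hcard]
        have : 0 ≤ N * C := by positivity
        nlinarith
      have hsw : T3 = ∑ a, ∑ b, ∑ x ∈ X, ∑ y ∈ X,
          K (w a + (r a : ℂ) * x) (w b + (r b : ℂ) * y) := by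
        rw [hT3]
        exact Finset.sum_congr rfl fun a _ => Finset.sum_comm
      rw [hsw]
      have hrow : ∀ a, 2 * N ^ 2 * (∑ b ∈ univ.filter (fun b => b ≠ a), Real.log ‖w a - w b‖)
          + 2 * N ^ 2 * Real.log (r a) - M * (4 * N * C)
          ≤ ∑ b, ∑ x ∈ X, ∑ y ∈ X, K (w a + (r a : ℂ) * x) (w b + (r b : ℂ) * y) := fun a => by
        have h6 : ∀ b ∈ (univ : Finset (Fin M)), (if b ≠ a then 2 * N ^ 2 * Real.log ‖w a - w b‖
              else 2 * N ^ 2 * Real.log (r a)) - 4 * N * C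
            ≤ ∑ x ∈ X, ∑ y ∈ X, K (w a + (r a : ℂ) * x) (w b + (r b : ℂ) * y) := fun b _ => by
          by_cases hb : b ≠ a
          · rw [if_pos hb]
            exact htwo a b (Ne.symm hb)
          · rw [if_neg hb]
            rw [not_not] at hb
            rw [hb]
            exact hthree a
        refine le_trans (le_of_eq ?_) (Finset.sum_le_sum h6)
        rw [Finset.sum_sub_distrib, Finset.sum_const, Finset.card_univ, Fintype.card_fin,
          nsmul_eq_mul, Finset.sum_ite, ← Finset.mul_sum]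
        have h7 : univ.filter (fun b => ¬ (b ≠ a)) = {a} := by
          ext b
          simp
        rw [h7, Finset.sum_singleton]
      refine le_trans (le_of_eq ?_) (Finset.sum_le_sum fun a _ => hrow a)
      rw [Finset.sum_sub_distrib, Finset.sum_add_distrib, Finset.sum_const, Finset.card_univ,
        Fintype.card_fin, nsmul_eq_mul, ← Finset.mul_sum, ← Finset.mul_sum]
      ring
    -- assembly
    have hlogδ : Real.log δ = -Real.log d := by
      rw [hδd, one_div, Real.log_inv]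
    have hdδ : (d : ℝ) * δ = 1 := by rw [hδd]; field_simp
    rw [hdδ, one_mul] at h4
    have a1 : 1 / (d : ℝ) ^ 2 * (2 * d * Real.log δ + 2 * Sα) ≤ 1 / (d : ℝ) ^ 2 * T1 :=
      mul_le_mul_of_nonneg_left h3 (by positivity)
    have a2 : 2 * (1 / (d * (M * N))) * T2
        ≤ 2 * (1 / ((d : ℝ) * (M * N))) * (2 * N * Sm + 2 * N * Si + d * M * (2 * Real.log 2)) :=
      mul_le_mul_of_nonneg_left h4 (by positivity)
    have a3 : 1 / ((M : ℝ) * N) ^ 2 * (2 * N ^ 2 * (Sw + Sr) - M ^ 2 * (4 * N * C))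
        ≤ 1 / ((M : ℝ) * N) ^ 2 * T3 := mul_le_mul_of_nonneg_left h5 (by positivity)
    have b1 : 1 / (d : ℝ) ^ 2 * (2 * d * Real.log δ + 2 * Sα)
        = 2 * (1 / (d : ℝ) ^ 2 * Sα) - 2 * (Real.log d / d) := by
      rw [hlogδ]
      field_simp
      ring
    have b2 : 2 * (1 / ((d : ℝ) * (M * N))) * (2 * N * Sm + 2 * N * Si + d * M * (2 * Real.log 2))
        = 2 * ((2 / ((d : ℝ) * M)) * Sm) + 2 * ((2 / (d * M)) * Si) + 4 * Real.log 2 / N := by
      field_simp
      ring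
    have b3 : 1 / ((M : ℝ) * N) ^ 2 * (2 * N ^ 2 * (Sw + Sr) - M ^ 2 * (4 * N * C))
        = 2 * (1 / (M : ℝ) ^ 2 * (Sw + Sr)) - 4 * C / N := by
      field_simp
    rw [b1] at a1
    rw [b2] at a2
    rw [b3] at a3
    have b4 : (2 * Real.log 2 + 2 * C) / N = (4 * Real.log 2 / N + 4 * C / N) / 2 := by
      field_simp
      ring
    rw [b4]
    linarith
  -- the limit
  have hfin : (1 / (d : ℝ) ^ 2) * Sα + (1 / (M : ℝ) ^ 2) * (Sw + Sr) - Real.log d / d
        - (2 / (d * M)) * Si - (2 / ((d : ℝ) * M)) * Sm ≤ 0 := by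
    by_contra hcon
    rw [not_le] at hcon
    obtain ⟨N, hN⟩ := exists_nat_gt ((2 * Real.log 2 + 2 * C) / ((1 / (d : ℝ) ^ 2) * Sα
      + (1 / (M : ℝ) ^ 2) * (Sw + Sr) - Real.log d / d
        - (2 / (d * M)) * Si - (2 / ((d : ℝ) * M)) * Sm))
    have hl2 : 0 < Real.log 2 := Real.log_pos (by norm_num)
    have hN0 : (0 : ℝ) < N := lt_of_le_of_lt (by positivity) hN
    have h1 := key N (by exact_mod_cast hN0)
    rw [div_lt_iff₀ hcon] at hN
    rw [le_div_iff₀ hN0] at h1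
    linarith
  linarith

end H23.ZZ
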