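import Pool.Agent.H23.ZZ.Bridge
import Pool.Agent.H1.ZZ.Asm

/-!
# Finiteness below `m` from an inequality in `y` and the energy of the charges
-/

open Polynomial Finset

namespace H23.ZZ

/-- **Only finitely many numbers of height at most `m`**, from real data: nodes `Y`, radii `R`, bounds
`K`, exponents `n`, `N`, a constant `C` with the inequality `hy` in `y ∈ [0, 4]`, and a lower bound `S`
of the energy. -/
theorem fin_of_y {M : ℕ} (hM : 0 < M) (Y R K : Fin M → ℝ) (h0 : ∀ m, 0 < Y m)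
    (h4 : ∀ m, Y m < 4) (h1 : ∀ m, Y m ≠ 1) (hinj : ∀ m n, m ≠ n → Y m ≠ Y n)
    (hmir : ∀ m n, m ≠ n → 1 + Y m * Y n * (Y m + Y n - 3) ≠ 0) (hR : ∀ m, 0 < R m)
    (hR1 : ∀ m, R m ≤ 1) (hK : ∀ m, R m * (Real.sqrt (Y m * (4 - Y m)) + R m) ≤ K m)
    (n : Fin 5 → ℕ) (N : ℕ) (hN : 0 < N) (C : ℝ) (hC : 0 < C)
    (hdeg : 2 * n 0 + 2 * n 1 + 8 * n 2 + 16 * n 3 + 6 * n 4 + 4 * M < 2 * N)
    (hy : ∀ y : ℝ, 0 ≤ y → y ≤ 4 →
      y ^ n 0 * |1 - y| ^ (2 * n 1) * A10 y ^ n 2 * A8 y ^ n 3 * A3 y ^ n 4 *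
        ((∏ m, (max |y - Y m| (K m)) ^ 2) *
          ∏ m, (1 + y * Y m * (y + Y m - 3) + K m ^ 2)) ≤ C ^ 2 * (max 1 y) ^ N)
    (S : ℝ) (hS : S ≤ (∑ m, ∑ n ∈ univ.filter (fun n => n ≠ m),
        (4 * Real.log |Y m - Y n| + 2 * Real.log (1 + Y m * Y n * (Y m + Y n - 3))))
      + ∑ m, (4 * Real.log (R m) + 2 * Real.log (Y m * (4 - Y m))
        + 2 * Real.log (1 + Y m ^ 2 * (2 * Y m - 3))))
    (m : ℝ) (hm : m * N < -Real.log C + S / (8 * M)) :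
    Set.Finite {α : ℂ | ∃ p : ℤ[X], Irreducible p ∧ 0 < p.natDegree ∧ aeval α p = 0 ∧
      Pool.H1.ZZ.height p ≤ m} := by
  choose ζ hζ hY _ _ using fun m => exists_zeta (h0 m).le (h4 m).le
  refine Pool.H1.ZZ.finite_of_cert (J := 5) (M := M * 4) (by omega) cpoly cpoly_ne_zero n
    (chg ζ) (chg_injective ζ hζ Y hY h0 h4 h1 hinj hmir) (rad R) (fun a => hR _)
    (fun a => hR1 _) 1 N hN C hC ?_ (circle ζ hζ Y R K hY hR hK n N C hC hy) S ?_ m ?_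
  · rw [Fin.sum_univ_five]
    simp only [cpoly_natDegree]
    have e0 : (![2, 2, 8, 16, 6] : Fin 5 → ℕ) 0 = 2 := rfl
    have e1 : (![2, 2, 8, 16, 6] : Fin 5 → ℕ) 1 = 2 := rfl
    have e2 : (![2, 2, 8, 16, 6] : Fin 5 → ℕ) 2 = 8 := rfl
    have e3 : (![2, 2, 8, 16, 6] : Fin 5 → ℕ) 3 = 16 := rfl
    have e4 : (![2, 2, 8, 16, 6] : Fin 5 → ℕ) 4 = 6 := rfl
    rw [e0, e1, e2, e3, e4]
    omega
  · rw [chg_energy ζ hζ Y R hY h0 h4 h1 hinj hmir]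
    exact hS
  · refine hm.trans_eq ?_
    push_cast
    ring

end H23.ZZ
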