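import Mathlib

/-!
# Geometry of the unit circle in the variable `y = |1 - z| ^ 2`

The distances of a point `z` of the unit circle from `ζ`, `conj ζ`, `1 - ζ`, `1 - conj ζ` (with `ζ` on the
circle), and the values `|R (z - z ^ 2)| ^ 2` of four polynomials, as polynomials in `y = |1 - z| ^ 2`.
-/

namespace H23.ZZ

theorem nsq (z : ℂ) : ‖z‖ ^ 2 = z.re ^ 2 + z.im ^ 2 := by
  rw [← Complex.normSq_eq_norm_sq, Complex.normSq_apply]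
  ring

theorem circ {z : ℂ} (hz : ‖z‖ = 1) : z.re ^ 2 + z.im ^ 2 = 1 := by
  rw [← nsq, hz, one_pow]

/-- `y = 2 - 2 Re z`. -/
theorem y_eq {z : ℂ} (hz : ‖z‖ = 1) : ‖1 - z‖ ^ 2 = 2 - 2 * z.re := by
  have h := circ hz
  rw [nsq, Complex.sub_re, Complex.sub_im, Complex.one_re, Complex.one_im]
  linear_combination h

theorem y_mem {z : ℂ} (hz : ‖z‖ = 1) : 0 ≤ ‖1 - z‖ ^ 2 ∧ ‖1 - z‖ ^ 2 ≤ 4 := by
  refine ⟨by positivity, ?_⟩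
  have h := circ hz
  rw [y_eq hz]
  nlinarith [sq_nonneg z.im]

/-- (g1) The distances from `ζ` and `conj ζ`. -/
theorem own {z ζ : ℂ} (hz : ‖z‖ = 1) (hζ : ‖ζ‖ = 1) :
    ‖z - ζ‖ * ‖z - (starRingEnd ℂ) ζ‖ = |‖1 - z‖ ^ 2 - ‖1 - ζ‖ ^ 2| := by
  have h1 := circ hz
  have h2 := circ hζ
  refine (sq_eq_sq₀ (by positivity) (abs_nonneg _)).1 ?_
  rw [mul_pow, sq_abs, y_eq hz, y_eq hζ, nsq, nsq]
  simp only [Complex.sub_re, Complex.sub_im, Complex.conj_re, Complex.conj_im]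
  have h3 : z.im ^ 2 = 1 - z.re ^ 2 := by linarith
  have h4 : ζ.im ^ 2 = 1 - ζ.re ^ 2 := by linarith
  have h5 : ((z.re - ζ.re) ^ 2 + (z.im - ζ.im) ^ 2) * ((z.re - ζ.re) ^ 2 + (z.im - -ζ.im) ^ 2)
      = ((z.re - ζ.re) ^ 2 + z.im ^ 2 + ζ.im ^ 2) ^ 2 - 4 * z.im ^ 2 * ζ.im ^ 2 := by ring
  rw [h5, h3, h4]
  ring

/-- (g2) The distances from `1 - ζ` and `1 - conj ζ`. -/
theorem mir {z ζ : ℂ} (hz : ‖z‖ = 1) (hζ : ‖ζ‖ = 1) :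
    (‖z - (1 - ζ)‖ * ‖z - (1 - (starRingEnd ℂ) ζ)‖) ^ 2
      = 1 + ‖1 - z‖ ^ 2 * ‖1 - ζ‖ ^ 2 * (‖1 - z‖ ^ 2 + ‖1 - ζ‖ ^ 2 - 3) := by
  have h1 := circ hz
  have h2 := circ hζ
  rw [mul_pow, y_eq hz, y_eq hζ, nsq, nsq]
  simp only [Complex.sub_re, Complex.sub_im, Complex.conj_re, Complex.conj_im, Complex.one_re,
    Complex.one_im]
  have h3 : z.im ^ 2 = 1 - z.re ^ 2 := by linarith
  have h4 : ζ.im ^ 2 = 1 - ζ.re ^ 2 := by linarith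
  have h5 : ((z.re - (1 - ζ.re)) ^ 2 + (z.im - (0 - ζ.im)) ^ 2)
        * ((z.re - (1 - ζ.re)) ^ 2 + (z.im - (0 - -ζ.im)) ^ 2)
      = ((z.re - (1 - ζ.re)) ^ 2 + z.im ^ 2 + ζ.im ^ 2) ^ 2 - 4 * z.im ^ 2 * ζ.im ^ 2 := by ring
  rw [h5, h3, h4]
  ring

/-- (g3) The distance of the two conjugate points. -/
theorem slf {ζ : ℂ} (hζ : ‖ζ‖ = 1) :
    ‖ζ - (starRingEnd ℂ) ζ‖ ^ 2 = ‖1 - ζ‖ ^ 2 * (4 - ‖1 - ζ‖ ^ 2) := by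
  have h2 := circ hζ
  rw [y_eq hζ, nsq]
  simp only [Complex.sub_re, Complex.sub_im, Complex.conj_re, Complex.conj_im]
  linear_combination 4 * h2

/-- (g4) Two smeared distances. -/
theorem max_mul (z a b : ℂ) {r : ℝ} (hr : 0 < r) :
    max ‖z - a‖ r * max ‖z - b‖ r ≤ max (‖z - a‖ * ‖z - b‖) (r * (‖a - b‖ + r)) := by
  have ha := norm_nonneg (z - a)
  have hb := norm_nonneg (z - b)
  have hab := norm_nonneg (a - b)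
  have h1 : ‖z - b‖ ≤ ‖z - a‖ + ‖a - b‖ := by
    have : z - b = z - a + (a - b) := by ring
    rw [this]
    exact norm_add_le _ _
  have h2 : ‖z - a‖ ≤ ‖z - b‖ + ‖a - b‖ := by
    have : z - a = z - b - (a - b) := by ring
    rw [this]
    exact norm_sub_le _ _
  rcases le_total ‖z - a‖ r with h3 | h3
  · rw [max_eq_right h3]
    refine le_max_of_le_right (mul_le_mul_of_nonneg_left (max_le ?_ ?_) hr.le)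
    · linarith
    · linarith
  · rw [max_eq_left h3]
    rcases le_total ‖z - b‖ r with h4 | h4
    · rw [max_eq_right h4]
      refine le_max_of_le_right ?_
      rw [mul_comm]
      exact mul_le_mul_of_nonneg_left (by linarith) hr.le
    · rw [max_eq_left h4]
      exact le_max_left _ _

/-- (g5) `|z - z ^ 2| ^ 2 = y`. -/
theorem t_norm {z : ℂ} (hz : ‖z‖ = 1) : ‖z - z ^ 2‖ ^ 2 = ‖1 - z‖ ^ 2 := by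
  have h : z - z ^ 2 = z * (1 - z) := by ring
  rw [h, norm_mul, hz, one_mul]

/-- (g5) `|1 - (z - z ^ 2)| = |1 - y|`. -/
theorem one_sub_t {z : ℂ} (hz : ‖z‖ = 1) : ‖1 - (z - z ^ 2)‖ = |1 - ‖1 - z‖ ^ 2| := by
  have h1 := circ hz
  refine (sq_eq_sq₀ (by positivity) (abs_nonneg _)).1 ?_
  rw [sq_abs, y_eq hz, nsq, pow_two z]
  simp only [Complex.sub_re, Complex.sub_im, Complex.one_re, Complex.one_im, Complex.mul_re,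
    Complex.mul_im]
  have h3 : z.im ^ 2 = 1 - z.re ^ 2 := by linarith
  have h4 : (1 - (z.re - (z.re * z.re - z.im * z.im))) ^ 2
        + (0 - (z.im - (z.re * z.im + z.im * z.re))) ^ 2
      = (1 - z.re + z.re ^ 2 - z.im ^ 2) ^ 2 + z.im ^ 2 * (1 - 2 * z.re) ^ 2 := by ring
  rw [h4, h3]
  ring

/-- (g5) the trace of `t = z - z ^ 2`. -/
theorem t_re {z : ℂ} (hz : ‖z‖ = 1) :
    2 * (z - z ^ 2).re = 3 * ‖1 - z‖ ^ 2 - (‖1 - z‖ ^ 2) ^ 2 := by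
  have h1 := circ hz
  rw [y_eq hz, pow_two z]
  simp only [Complex.sub_re, Complex.mul_re]
  linear_combination 2 * h1

/-- (g5) the quadratic equation of `t = z - z ^ 2`. -/
theorem t_sq {z : ℂ} (hz : ‖z‖ = 1) (y : ℂ) (hy : y = ((‖1 - z‖ ^ 2 : ℝ) : ℂ)) :
    (z - z ^ 2) ^ 2 = (3 * y - y ^ 2) * (z - z ^ 2) - y := by
  have h1 : (z - z ^ 2) * (starRingEnd ℂ) (z - z ^ 2) = y := by
    rw [Complex.mul_conj, Complex.normSq_eq_norm_sq, t_norm hz, hy]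
  have h2 : (z - z ^ 2) + (starRingEnd ℂ) (z - z ^ 2) = 3 * y - y ^ 2 := by
    rw [Complex.add_conj, t_re hz, hy]
    push_cast
    ring
  linear_combination (z - z ^ 2) * h2 - h1

/-- (g5) the norm of `α t + β`. -/
theorem quad {t : ℂ} {y : ℝ} (h1 : ‖t‖ ^ 2 = y) (h2 : 2 * t.re = 3 * y - y ^ 2) (α β : ℝ) :
    ‖(α : ℂ) * t + (β : ℂ)‖ ^ 2 = α ^ 2 * y + α * β * (3 * y - y ^ 2) + β ^ 2 := by
  rw [nsq] at h1 ⊢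
  simp only [Complex.add_re, Complex.add_im, Complex.re_ofReal_mul, Complex.im_ofReal_mul,
    Complex.ofReal_re, Complex.ofReal_im]
  linear_combination α ^ 2 * h1 + α * β * h2

/-- (g5) `t ^ 3 + t ^ 2 - 2 t + 1` at `t = z - z ^ 2`. -/
theorem nrm_R3 {z : ℂ} (hz : ‖z‖ = 1) (t : ℂ) (ht : t = z - z ^ 2) (y : ℝ)
    (hy : y = ‖1 - z‖ ^ 2) :
    ‖t ^ 3 + t ^ 2 - 2 * t + 1‖ ^ 2
      = 1 - 4 * y + y ^ 2 + 12 * y ^ 3 - 15 * y ^ 4 + 7 * y ^ 5 - y ^ 6 := by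
  have h0 : t ^ 2 = (3 * (y : ℂ) - (y : ℂ) ^ 2) * t - y := by
    rw [ht, t_sq hz _ rfl, hy]
  have h1 : t ^ 3 + t ^ 2 - 2 * t + 1
      = ((-2 + 2 * y + 8 * y ^ 2 - 6 * y ^ 3 + y ^ 4 : ℝ) : ℂ) * t
        + ((1 - y - 3 * y ^ 2 + y ^ 3 : ℝ) : ℂ) := by
    push_cast
    linear_combination ((1 + 3 * (y : ℂ) - (y : ℂ) ^ 2) + (1) * t) * h0
  rw [h1, quad (y := y) (by rw [ht, t_norm hz, hy]) (by rw [ht, t_re hz, hy])]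
  ring

/-- (g5) `t ^ 4 - 2 t ^ 3 + 4 t ^ 2 - 3 t + 1` at `t = z - z ^ 2`. -/
theorem nrm_N10 {z : ℂ} (hz : ‖z‖ = 1) (t : ℂ) (ht : t = z - z ^ 2) (y : ℝ)
    (hy : y = ‖1 - z‖ ^ 2) :
    ‖t ^ 4 - 2 * t ^ 3 + 4 * t ^ 2 - 3 * t + 1‖ ^ 2
      = 1 - 8 * y + 27 * y ^ 2 - 55 * y ^ 3 + 76 * y ^ 4 - 65 * y ^ 5 + 33 * y ^ 6 - 9 * y ^ 7 +
        y ^ 8 := by
  have h0 : t ^ 2 = (3 * (y : ℂ) - (y : ℂ) ^ 2) * t - y := by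
    rw [ht, t_sq hz _ rfl, hy]
  have h1 : t ^ 4 - 2 * t ^ 3 + 4 * t ^ 2 - 3 * t + 1
      = ((-3 + 14 * y - 28 * y ^ 2 + 41 * y ^ 3 - 29 * y ^ 4 + 9 * y ^ 5 - y ^ 6 : ℝ) : ℂ) * t
        + ((1 - 4 * y + 7 * y ^ 2 - 11 * y ^ 3 + 6 * y ^ 4 - y ^ 5 : ℝ) : ℂ) := by
    push_cast
    linear_combination ((4 - 7 * (y : ℂ) + 11 * (y : ℂ) ^ 2 - 6 * (y : ℂ) ^ 3 + (y : ℂ) ^ 4) + (-2 + 3 * (y : ℂ)
      - (y : ℂ) ^ 2) * t + (1) * t ^ 2) * h0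
  rw [h1, quad (y := y) (by rw [ht, t_norm hz, hy]) (by rw [ht, t_re hz, hy])]
  ring

/-- (g5) the polynomial of degree 8 at `t = z - z ^ 2`. -/
theorem nrm_R8 {z : ℂ} (hz : ‖z‖ = 1) (t : ℂ) (ht : t = z - z ^ 2) (y : ℝ)
    (hy : y = ‖1 - z‖ ^ 2) :
    ‖t ^ 8 - 3 * t ^ 7 + 8 * t ^ 6 - 16 * t ^ 5 + 26 * t ^ 4 - 27 * t ^ 3 + 17 * t ^ 2 - 6 *
      t + 1‖ ^ 2
      = 1 - 16 * y + 113 * y ^ 2 - 480 * y ^ 3 + 1428 * y ^ 4 - 3283 * y ^ 5 + 6158 * y ^ 6 -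
        9546 * y ^ 7 + 12042 * y ^ 8 - 12029 * y ^ 9 + 9276 * y ^ 10 - 5402 * y ^ 11 + 2320 * y
        ^ 12 - 710 * y ^ 13 + 146 * y ^ 14 - 18 * y ^ 15 + y ^ 16 := by
  have h0 : t ^ 2 = (3 * (y : ℂ) - (y : ℂ) ^ 2) * t - y := by
    rw [ht, t_sq hz _ rfl, hy]
  have h1 : t ^ 8 - 3 * t ^ 7 + 8 * t ^ 6 - 16 * t ^ 5 + 26 * t ^ 4 - 27 * t ^ 3 + 17 * t ^ 2 - 6 *
        t + 1
      = ((-6 + 78 * y - 432 * y ^ 2 + 1423 * y ^ 3 - 3375 * y ^ 4 + 6415 * y ^ 5 - 9971 * y ^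
          6 + 12275 * y ^ 7 - 11294 * y ^ 8 + 7398 * y ^ 9 - 3338 * y ^ 10 + 1005 * y ^ 11 -
          192 * y ^ 12 + 21 * y ^ 13 - y ^ 14 : ℝ) : ℂ) * t
        + ((1 - 17 * y + 107 * y ^ 2 - 365 * y ^ 3 + 864 * y ^ 4 - 1637 * y ^ 5 + 2526 * y ^ 6 -
          3046 * y ^ 7 + 2646 * y ^ 8 - 1553 * y ^ 9 + 590 * y ^ 10 - 138 * y ^ 11 + 18 * y ^
          12 - y ^ 13 : ℝ) : ℂ) := by
    push_cast
    linear_combination ((17 - 107 * (y : ℂ) + 365 * (y : ℂ) ^ 2 - 864 * (y : ℂ) ^ 3 + 1637 * (y : ℂ) ^ 4 - 2526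
      * (y : ℂ) ^ 5 + 3046 * (y : ℂ) ^ 6 - 2646 * (y : ℂ) ^ 7 + 1553 * (y : ℂ) ^ 8 - 590 * (y
      : ℂ) ^ 9 + 138 * (y : ℂ) ^ 10 - 18 * (y : ℂ) ^ 11 + (y : ℂ) ^ 12) + (-27 + 94 * (y : ℂ)
      - 221 * (y : ℂ) ^ 2 + 418 * (y : ℂ) ^ 3 - 640 * (y : ℂ) ^ 4 + 756 * (y : ℂ) ^ 5 - 611 *
      (y : ℂ) ^ 6 + 310 * (y : ℂ) ^ 7 - 93 * (y : ℂ) ^ 8 + 15 * (y : ℂ) ^ 9 - (y : ℂ) ^ 10) *
      t + (26 - 56 * (y : ℂ) + 107 * (y : ℂ) ^ 2 - 162 * (y : ℂ) ^ 3 + 188 * (y : ℂ) ^ 4 - 138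
      * (y : ℂ) ^ 5 + 57 * (y : ℂ) ^ 6 - 12 * (y : ℂ) ^ 7 + (y : ℂ) ^ 8) * t ^ 2 + (-16 + 27 *
      (y : ℂ) - 41 * (y : ℂ) ^ 2 + 47 * (y : ℂ) ^ 3 - 30 * (y : ℂ) ^ 4 + 9 * (y : ℂ) ^ 5 - (y
      : ℂ) ^ 6) * t ^ 3 + (8 - 10 * (y : ℂ) + 12 * (y : ℂ) ^ 2 - 6 * (y : ℂ) ^ 3 + (y : ℂ) ^
      4) * t ^ 4 + (-3 + 3 * (y : ℂ) - (y : ℂ) ^ 2) * t ^ 5 + (1) * t ^ 6) * h0
  rw [h1, quad (y := y) (by rw [ht, t_norm hz, hy]) (by rw [ht, t_re hz, hy])]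
  ring

/-- (g6) Every `y` in `[0, 4]` is attained. -/
theorem exists_zeta {y : ℝ} (h0 : 0 ≤ y) (h4 : y ≤ 4) :
    ∃ ζ : ℂ, ‖ζ‖ = 1 ∧ ‖1 - ζ‖ ^ 2 = y ∧ ζ.re = 1 - y / 2 ∧ 0 ≤ ζ.im := by
  have h1 : 0 ≤ 1 - (1 - y / 2) ^ 2 := by nlinarith
  have h2 : ‖(⟨1 - y / 2, Real.sqrt (1 - (1 - y / 2) ^ 2)⟩ : ℂ)‖ = 1 := by
    refine (sq_eq_sq₀ (norm_nonneg _) zero_le_one).1 ?_
    rw [nsq, Real.sq_sqrt h1]
    ring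
  refine ⟨⟨1 - y / 2, Real.sqrt (1 - (1 - y / 2) ^ 2)⟩, h2, ?_, rfl, Real.sqrt_nonneg _⟩
  rw [y_eq h2]
  ring

end H23.ZZ
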